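import Pool.Agent.K6.H80.FV.Rows

/-!
Choice of the rows, and the determinants.
-/

set_option autoImplicit false
set_option linter.unusedSectionVars false

open MvPolynomial FF Pool.Agent.W603.LV Pool.Agent.W603.PV
open Pool.Agent.K6.H80.LV (Ti OK St sM pw up up_le mn mn_pw mn_step pw_mem det_blk sM_up_mem)

namespace Pool.Agent.K6.H80.FV

variable {K : Type} [Field K] {σ S A T : Type} [Fintype σ] [Fintype S] [Fintype T]

/-- The span of all the vector fields. -/
noncomputable def Full (β : σ → S) (wT : T → S → ℕ) (c : S → σ) (dg : A → S → ℕ)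
    (D : A → (σ →₀ ℕ) → Derivation ℤ K K) (y : σ ⊕ T → K) :
    Submodule K (σ ⊕ T → K) :=
  Submodule.span K (Set.range (wv β wT c dg D y) ∪
    {v | ∃ a I, I ∈ St β c (dg a) ∧ v = Ev D y a I})

/-- The linear functionals that are dual to the derivatives. -/
structure Fn (β : σ → S) (wT : T → S → ℕ) (c : S → σ) (dg : A → S → ℕ)
    (D : A → (σ →₀ ℕ) → Derivation ℤ K K) (y : σ ⊕ T → K)
    (φ : A → σ ⊕ T → K) : Prop where
  pos : ∀ a s, ∑ γ, φ a γ * gx β wT y s γ = 0
  nor : ∀ a b, ∀ I ∈ St β c (dg b), a ≠ b → ∑ γ, φ a γ * D b I (y γ) = 0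
  dia : ∀ a, ∀ I ∈ St β c (dg a), ∑ γ, φ a γ * D a I (y γ) = - mn (y ∘ Sum.inl) I

section

variable {β : σ → S} {wT : T → S → ℕ} {c : S → σ} {dg : A → S → ℕ}
  {D : A → (σ →₀ ℕ) → Derivation ℤ K K}

theorem wv_mem_full (y : σ ⊕ T → K) (o : Rx σ S A) :
    wv β wT c dg D y o ∈ Full β wT c dg D y :=
  Submodule.subset_span (Or.inl ⟨o, rfl⟩)

theorem Ev_mem_full (y : σ ⊕ T → K) {a : A} {I : σ →₀ ℕ} (hI : I ∈ St β c (dg a)) :
    Ev D y a I ∈ Full β wT c dg D y := Submodule.subset_span (Or.inr ⟨a, I, hI, rfl⟩)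

theorem vv_mem_full (y : σ ⊕ T → K) {I : A → σ →₀ ℕ}
    (hI : ∀ a, I a ∈ St β c (dg a)) (i : Rx σ S A ⊕ A) :
    vv β wT c dg D y I i ∈ Full β wT c dg D y := by
  rcases i with o | a
  · exact wv_mem_full y o
  · exact Ev_mem_full y (hI a)

/-- The functionals vanish on the tangent vector fields. -/
theorem Fn.wv_zero {y : σ ⊕ T → K} {φ : A → σ ⊕ T → K} (h : Fn β wT c dg D y φ) (a : A)
    (o : Rx σ S A) : ∑ γ, φ a γ * wv β wT c dg D y o γ = 0 := by
  classical
  rcases o with s | t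
  · exact h.pos a s
  · simp only [wv, tv]
    by_cases ht : OK β dg t
    · simp only [if_pos ht, Pi.sub_apply, Pi.smul_apply, smul_eq_mul, Ev]
      have h1 : ∑ γ, φ a γ * (y (Sum.inl (c t.2.1)) *
            D t.1 (sM c (dg t.1) t.2.2.1 (up t.2.2.2 t.2.1)) (y γ) -
          y (Sum.inl (t.2.2.1 t.2.1)) * D t.1 (sM c (dg t.1) t.2.2.1 t.2.2.2) (y γ)) =
          y (Sum.inl (c t.2.1)) *
            (∑ γ, φ a γ * D t.1 (sM c (dg t.1) t.2.2.1 (up t.2.2.2 t.2.1)) (y γ)) -
          y (Sum.inl (t.2.2.1 t.2.1)) *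
            (∑ γ, φ a γ * D t.1 (sM c (dg t.1) t.2.2.1 t.2.2.2) (y γ)) := by
        rw [Finset.mul_sum, Finset.mul_sum, ← Finset.sum_sub_distrib]
        exact Finset.sum_congr rfl fun l _ => by ring
      rw [h1]
      by_cases hat : a = t.1
      · rw [hat, h.dia t.1 _ (sM_up_mem ht.1 ht.2.1 ht.2.2),
          h.dia t.1 _ ⟨_, _, ht.1, ht.2.1, rfl⟩]
        have h2 := mn_step (y ∘ Sum.inl) c (dg t.1) t.2.2.1 t.2.2.2 t.2.1 ht.2.2
        simp only [Function.comp_apply] at h2
        linear_combination -h2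
      · rw [h.nor a t.1 _ (sM_up_mem ht.1 ht.2.1 ht.2.2) hat,
          h.nor a t.1 _ ⟨_, _, ht.1, ht.2.1, rfl⟩ hat]
        ring
    · simp only [if_neg ht, Pi.zero_apply, mul_zero, Finset.sum_const_zero]

/-- The choice of the rows. -/
theorem exists_rows [Finite A] (hc : ∀ s, β (c s) = s) {y : σ ⊕ T → K}
    (hx : ∀ s, y (Sum.inl (c s)) ≠ 0)
    {φ : A → σ ⊕ T → K}
    (hφ : Fn β wT c dg D y φ)
    (hs0 : LinearIndepOn K (vv β wT c dg D y fun a => pw c (dg a))
      (Set.range fun s : S => (Sum.inl (Sum.inl s) : Rx σ S A ⊕ A))) :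
    ∃ b : Finset (Rx σ S A ⊕ A), (∀ s, Sum.inl (Sum.inl s) ∈ b) ∧ (∀ a, Sum.inr a ∈ b) ∧
      LinearIndependent K (fun i : b => vv β wT c dg D y (fun a => pw c (dg a)) i) ∧
      (Submodule.span K (Set.range (wv β wT c dg D y)) ≤
        Submodule.span K (wv β wT c dg D y '' {o | Sum.inl o ∈ b})) ∧
      Module.finrank K (Full β wT c dg D y) = b.card := by
  classical
  have := Fintype.ofFinite A
  obtain ⟨v, hv⟩ : ∃ v, v = vv β wT c dg D y (fun a => pw c (dg a)) := ⟨_, rfl⟩
  have hdeg : ∀ a, pw c (dg a) ∈ St β c (dg a) := fun a => pw_mem hc _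
  have hc0 : ∀ a, mn (y ∘ Sum.inl) (pw c (dg a)) ≠ 0 := fun a => by
    rw [mn_pw]
    exact Finset.prod_ne_zero_iff.2 fun s _ => pow_ne_zero _ (hx s)
  rw [← hv] at hs0
  obtain ⟨b0, hb0, hs0b, hspan0, hb0i⟩ := exists_linearIndepOn_extension hs0
    (t := Set.range Sum.inl) (by
      rintro _ ⟨s, rfl⟩
      exact ⟨_, rfl⟩)
  -- the functionals
  obtain ⟨Φ, hΦ⟩ : ∃ Φ : (σ ⊕ T → K) →ₗ[K] (A → K), ∀ z a, Φ z a = ∑ l, φ a l * z l := by
    exact ⟨{ toFun := fun z a => ∑ l, φ a l * z l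
             map_add' := fun y z => funext fun a => by
               rw [Pi.add_apply, ← Finset.sum_add_distrib]
               exact Finset.sum_congr rfl fun l _ => by rw [Pi.add_apply, mul_add]
             map_smul' := fun r z => funext fun a => by
               rw [RingHom.id_apply, Pi.smul_apply, smul_eq_mul, Finset.mul_sum]
               exact Finset.sum_congr rfl fun l _ => by
                 rw [Pi.smul_apply, smul_eq_mul]
                 ring }, fun _ _ => rfl⟩
  have hΦw : ∀ z ∈ Submodule.span K (Set.range (wv β wT c dg D y)), Φ z = 0 := by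
    intro z hz
    have h1 : Submodule.span K (Set.range (wv β wT c dg D y)) ≤ LinearMap.ker Φ := by
      rw [Submodule.span_le]
      rintro _ ⟨o, rfl⟩
      rw [SetLike.mem_coe, LinearMap.mem_ker]
      funext a
      rw [hΦ, Pi.zero_apply]
      exact hφ.wv_zero a o
    exact h1 hz
  have hΦE : ∀ a c' : A, Φ (v (Sum.inr a)) c' =
      if a = c' then -(mn (y ∘ Sum.inl) (pw c (dg a))) else 0 := by
    intro a c'
    rw [hΦ, hv]
    simp only [vv, Ev]
    split_ifs with h
    · subst h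
      exact hφ.dia a _ (hdeg a)
    · exact hφ.nor c' a _ (hdeg a) (Ne.symm h)
  have hΦsum : ∀ r : A → K, Φ (∑ a : A, r a • v (Sum.inr a)) =
      fun a => -(r a * mn (y ∘ Sum.inl) (pw c (dg a))) := by
    intro r
    rw [map_sum]
    funext c'
    rw [Finset.sum_apply, Finset.sum_eq_single c']
    · rw [map_smul, Pi.smul_apply, hΦE, if_pos rfl, smul_eq_mul]
      ring
    · intro a _ hac
      rw [map_smul, Pi.smul_apply, hΦE, if_neg hac, smul_zero]
    · intro h; exact absurd (Finset.mem_univ c') h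
  have hCind : LinearIndepOn K v (Set.range (Sum.inr : A → Rx σ S A ⊕ A)) := by
    have h1 : LinearIndependent K (fun a : A => v (Sum.inr a)) := by
      rw [Fintype.linearIndependent_iff]
      intro r hr a
      have h2 := hΦsum r
      rw [hr, map_zero] at h2
      have h3 := congrFun h2 a
      have h4 : r a * mn (y ∘ Sum.inl) (pw c (dg a)) = 0 := by
        have h5 : (0 : K) = -(r a * mn (y ∘ Sum.inl) (pw c (dg a))) := h3
        rw [← neg_eq_zero]; exact h5.symm
      exact (mul_eq_zero.1 h4).resolve_right (hc0 a)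
    have h2 : LinearIndepOn K (v ∘ Sum.inr) (Set.univ : Set A) := by
      rw [linearIndepOn_univ_iff]; exact h1
    have h3 := LinearIndepOn.image_of_comp _ _ h2
    rwa [Set.image_univ] at h3
  have hdisj : Disjoint (Submodule.span K (v '' b0))
      (Submodule.span K (v '' (Set.range (Sum.inr : A → Rx σ S A ⊕ A)))) := by
    rw [Submodule.disjoint_def]
    intro z hz1 hz2
    have h1 : Φ z = 0 := by
      apply hΦw
      refine (Submodule.span_le.2 ?_) hz1
      rintro _ ⟨i, hi, rfl⟩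
      obtain ⟨o, rfl⟩ := hb0 hi
      rw [hv]
      exact Submodule.subset_span ⟨o, rfl⟩
    have h2 : v '' (Set.range (Sum.inr : A → Rx σ S A ⊕ A)) =
        Set.range fun a : A => v (Sum.inr a) := by
      ext w
      constructor
      · rintro ⟨_, ⟨a, rfl⟩, rfl⟩
        exact ⟨a, rfl⟩
      · rintro ⟨a, rfl⟩
        exact ⟨_, ⟨a, rfl⟩, rfl⟩
    rw [h2, Submodule.mem_span_range_iff_exists_fun] at hz2
    obtain ⟨r, rfl⟩ := hz2
    rw [hΦsum] at h1
    refine Finset.sum_eq_zero fun a _ => ?_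
    have h3 := congrFun h1 a
    have h4 : r a * mn (y ∘ Sum.inl) (pw c (dg a)) = 0 := by
      have h5 : -(r a * mn (y ∘ Sum.inl) (pw c (dg a))) = 0 := h3
      rwa [neg_eq_zero] at h5
    rw [(mul_eq_zero.1 h4).resolve_right (hc0 a), zero_smul]
  obtain ⟨b1, -, hb1, hspan1, hb1i⟩ := exists_linearIndepOn_extension (hb0i.union hCind hdisj)
    (Set.subset_univ _)
  have hb1i' : LinearIndependent K (fun i : b1 => v i) := hb1i
  have hfin : b1.Finite := by
    have := hb1i'.finite
    exact Set.toFinite b1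
  obtain ⟨b, hb⟩ : ∃ b : Finset (Rx σ S A ⊕ A), (b : Set _) = b1 :=
    ⟨hfin.toFinset, hfin.coe_toFinset⟩
  have hbm : ∀ i, i ∈ b ↔ i ∈ b1 := fun i => by rw [← hb, Finset.mem_coe]
  have hbi : LinearIndependent K (fun i : b => v i) := by
    have h1 : LinearIndepOn K v (b : Set _) := by rw [hb]; exact hb1i
    exact h1
  refine ⟨b, fun s => ?_, fun a => ?_, ?_, ?_, ?_⟩
  · rw [hbm]; exact hb1 (Or.inl (hs0b ⟨s, rfl⟩))
  · rw [hbm]; exact hb1 (Or.inr ⟨a, rfl⟩)
  · rw [← hv]; exact hbi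
  · rw [Submodule.span_le]
    rintro _ ⟨o, rfl⟩
    have h1 := hspan0 ⟨Sum.inl o, ⟨o, rfl⟩, rfl⟩
    have h2 : v (Sum.inl o) = wv β wT c dg D y o := by rw [hv]; rfl
    rw [h2] at h1
    refine Submodule.span_mono ?_ h1
    rintro _ ⟨i, hi, rfl⟩
    obtain ⟨o', rfl⟩ := hb0 hi
    refine ⟨o', ?_, by rw [hv]; rfl⟩
    rw [Set.mem_ofPred_eq, hbm]
    exact hb1 (Or.inl hi)
  · have h1 : Full β wT c dg D y = Submodule.span K (Set.range fun i : b => v i) := by
      apply le_antisymm
      · have h2 : ∀ i, v i ∈ Submodule.span K (Set.range fun i : b => v i) := by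
          intro i
          have h3 := hspan1 ⟨i, Set.mem_univ _, rfl⟩
          rw [← hb, Set.image_eq_range] at h3
          exact h3
        have h3 : ∀ o, wv β wT c dg D y o ∈
            Submodule.span K (Set.range fun i : b => v i) := by
          intro o
          have := h2 (Sum.inl o)
          rwa [hv] at this ⊢
        rw [Full, Submodule.span_le]
        rintro _ (⟨o, rfl⟩ | ⟨a, I, hI, rfl⟩)
        · exact h3 o
        · have h4 := Ev_mod (wT := wT) dg D hx a hI
          have h5 : Submodule.span K (Set.range (wv β wT c dg D y)) ≤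
              Submodule.span K (Set.range fun i : b => v i) := by
            rw [Submodule.span_le]
            rintro _ ⟨o, rfl⟩
            exact h3 o
          have h6 : Ev D y a (pw c (dg a)) ∈
              Submodule.span K (Set.range fun i : b => v i) := by
            have := h2 (Sum.inr a)
            rwa [hv] at this ⊢
          have h7 := add_mem (h5 h4) (Submodule.smul_mem _ (mn (y ∘ Sum.inl) I /
            mn (y ∘ Sum.inl) (pw c (dg a))) h6)
          rwa [sub_add_cancel] at h7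
      · rw [Submodule.span_le]
        rintro _ ⟨i, rfl⟩
        rw [hv]
        exact vv_mem_full y hdeg i.1
    rw [h1, finrank_span_eq_card hbi, Fintype.card_coe]

/-- The matrix of the rows. -/
noncomputable def mx (β : σ → S) (wT : T → S → ℕ) (c : S → σ) (dg : A → S → ℕ)
    (D : A → (σ →₀ ℕ) → Derivation ℤ K K)
    (y : σ ⊕ T → K) (I : A → σ →₀ ℕ) (b : Finset (Rx σ S A ⊕ A))
    (τ : b → σ ⊕ T) : Matrix b b K := Matrix.of fun i j => vv β wT c dg D y I i (τ j)

open scoped Classical in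
theorem det_change_aux {y : σ ⊕ T → K} (hx : ∀ s, y (Sum.inl (c s)) ≠ 0)
    {b : Finset (Rx σ S A ⊕ A)} (hb : ∀ a, Sum.inr a ∈ b) (τ : b → σ ⊕ T)
    (hspan : Submodule.span K (Set.range (wv β wT c dg D y)) ≤
        Submodule.span K (wv β wT c dg D y '' {o | Sum.inl o ∈ b}))
    (I : A → σ →₀ ℕ) (hI : ∀ a, I a ∈ St β c (dg a)) (U : Finset A) :
    (mx β wT c dg D y (fun a => if a ∈ U then I a else pw c (dg a)) b τ).det =
      (∏ a ∈ U, mn (y ∘ Sum.inl) (I a) / mn (y ∘ Sum.inl) (pw c (dg a))) *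
        (mx β wT c dg D y (fun a => pw c (dg a)) b τ).det := by
  induction U using Finset.induction_on with
  | empty => simp
  | insert a U ha ih =>
    rw [Finset.prod_insert ha, mul_assoc, ← ih]
    obtain ⟨J, hJ⟩ : ∃ J : A → σ →₀ ℕ, J = fun a => if a ∈ U then I a else
      pw c (dg a) := ⟨_, rfl⟩
    obtain ⟨J', hJ'⟩ : ∃ J' : A → σ →₀ ℕ, J' = fun p => if p ∈ insert a U then I p else
      pw c (dg p) := ⟨_, rfl⟩
    rw [← hJ, ← hJ']
    have h1 : ∀ p, p ≠ a → J' p = J p := by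
      intro p hp
      rw [hJ, hJ']
      simp only [Finset.mem_insert, hp, false_or]
    have hJa : J a = pw c (dg a) := by
      rw [hJ]
      simp only [if_neg ha]
    have hJ'a : J' a = I a := by
      rw [hJ']
      simp only [Finset.mem_insert_self, if_true]
    have h2 : ∀ i : Rx σ S A ⊕ A, i ≠ Sum.inr a →
        vv β wT c dg D y J' i = vv β wT c dg D y J i := by
      rintro (o | p) hi
      · rfl
      · simp only [vv]
        rw [h1 p fun h => hi (by rw [h])]
    obtain ⟨i0, hi0⟩ : ∃ i0 : b, i0 = ⟨Sum.inr a, hb a⟩ := ⟨_, rfl⟩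
    obtain ⟨μ, hμ⟩ : ∃ μ, μ = mn (y ∘ Sum.inl) (I a) / mn (y ∘ Sum.inl) (pw c (dg a)) :=
      ⟨_, rfl⟩
    obtain ⟨w, hw⟩ : ∃ w, w = Ev D y a (I a) - μ • Ev D y a (pw c (dg a)) := ⟨_, rfl⟩
    have hwW : w ∈ Submodule.span K (wv β wT c dg D y '' {o | Sum.inl o ∈ b}) := by
      apply hspan
      rw [hw, hμ]
      exact Ev_mod dg D hx a (hI a)
    have h3 : mx β wT c dg D y J' b τ = (mx β wT c dg D y J b τ).updateRow i0
        (μ • (fun j => vv β wT c dg D y J i0 (τ j)) + fun j => w (τ j)) := by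
      ext i j
      rw [Matrix.updateRow_apply]
      split_ifs with hi
      · rw [hi, hi0]
        simp only [mx, Matrix.of_apply, vv, hJa, hJ'a, hw, Pi.add_apply, Pi.smul_apply,
          Pi.sub_apply]
        rw [add_sub_cancel]
      · simp only [mx, Matrix.of_apply]
        rw [h2 i fun h => hi (Subtype.ext (by rw [h, hi0]))]
    rw [h3, Matrix.det_updateRow_add, Matrix.det_updateRow_smul]
    have h4 : (mx β wT c dg D y J b τ).updateRow i0
        (fun j => vv β wT c dg D y J i0 (τ j)) =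
        mx β wT c dg D y J b τ := Matrix.updateRow_eq_self _ _
    have h5 : ((mx β wT c dg D y J b τ).updateRow i0 (fun j => w (τ j))).det = 0 := by
      obtain ⟨r, hr⟩ : ∃ r : b → b → K, r = ((mx β wT c dg D y J b τ).updateRow i0
          (fun j => w (τ j))) := ⟨_, rfl⟩
      have h6 : r i0 = fun j => w (τ j) := by
        rw [hr]
        exact Matrix.updateRow_self
      rw [← hr]
      refine Pool.Agent.TH145.GC.det_row_zero r i0 ?_
      rw [h6]
      obtain ⟨π, hπ⟩ : ∃ π : (σ ⊕ T → K) →ₗ[K] (b → K), ∀ z j, π z j = z (τ j) :=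
        ⟨{ toFun := fun z j => z (τ j)
           map_add' := fun _ _ => rfl
           map_smul' := fun _ _ => rfl }, fun _ _ => rfl⟩
      have h7 : (fun j => w (τ j)) = π w := by
        funext j
        rw [hπ]
      rw [h7]
      have h8 : π w ∈ (Submodule.span K (wv β wT c dg D y '' {o | Sum.inl o ∈ b})).map π :=
        ⟨w, hwW, rfl⟩
      rw [Submodule.map_span] at h8
      refine Submodule.span_mono ?_ h8
      rintro _ ⟨_, ⟨o, ho, rfl⟩, rfl⟩
      have hne : (⟨Sum.inl o, ho⟩ : b) ≠ i0 := by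
        rw [hi0]
        intro h
        exact absurd (congrArg Subtype.val h) (by simp)
      refine ⟨⟨Sum.inl o, ho⟩, hne, ?_⟩
      have h9 : r ⟨Sum.inl o, ho⟩ = mx β wT c dg D y J b τ ⟨Sum.inl o, ho⟩ := by
        rw [hr]
        exact Matrix.updateRow_ne hne
      rw [h9]
      funext j
      rw [hπ]
      rfl
    rw [h4, h5, add_zero, hμ]

open scoped Classical in
theorem det_change [Fintype A] {y : σ ⊕ T → K} (hx : ∀ s, y (Sum.inl (c s)) ≠ 0)
    {b : Finset (Rx σ S A ⊕ A)} (hb : ∀ a, Sum.inr a ∈ b) (τ : b → σ ⊕ T)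
    (hspan : Submodule.span K (Set.range (wv β wT c dg D y)) ≤
        Submodule.span K (wv β wT c dg D y '' {o | Sum.inl o ∈ b}))
    (I : A → σ →₀ ℕ) (hI : ∀ a, I a ∈ St β c (dg a)) :
    (mx β wT c dg D y I b τ).det =
      (∏ a, mn (y ∘ Sum.inl) (I a) / mn (y ∘ Sum.inl) (pw c (dg a))) *
        (mx β wT c dg D y (fun a => pw c (dg a)) b τ).det := by
  have h1 := det_change_aux hx hb τ hspan I hI Finset.univ
  simpa using h1

open scoped Classical in
theorem det_lam (hc : ∀ s, β (c s) = s) {y : σ ⊕ T → K} {lam : S → K} (hl : ∀ s, lam s ≠ 0)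
    {b : Finset (Rx σ S A ⊕ A)}
    (hb : ∀ s, Sum.inl (Sum.inl s) ∈ b) (τ : b → σ ⊕ T) (I : A → σ →₀ ℕ) :
    (mx β wT c dg D (gsc β wT lam y) I b τ).det =
      (∏ j : b, ∏ s, lam s ^ gw β wT (τ j) s) *
        ((∏ i : b, fac lam i.1) * (mx β wT c dg D y I b τ).det) := by
  obtain ⟨κ, hκ0, hκ⟩ := vv_scale (wT := wT) hc dg D y hl I
  exact det_blk (fun (i j : b) => vv β wT c dg D (gsc β wT lam y) I i (τ j))
    (fun (i j : b) => vv β wT c dg D y I i (τ j)) (fun j => ∏ s, lam s ^ gw β wT (τ j) s)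
    (fun i => fac lam i.1)
    (fun i => κ i.1) (fun s => ⟨Sum.inl (Sum.inl s), hb s⟩) (fun s s' => hκ0 s s')
    fun i j => hκ i (τ j)

end

end Pool.Agent.K6.H80.FV
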