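import Pool.Agent.K6.H80.FV.Choice

/-!
The order of a determinant whose rows have their poles in one common direction.
-/

set_option autoImplicit false
set_option linter.unusedSectionVars false

open FF Pool.Agent.W603.LV

namespace Pool.Agent.K6.H80.FV

section det

variable {K R : Type} [Field K] [Fintype R] [DecidableEq R]

theorem det_expand (r : Matrix R R K) (α w : R → K) (U : Finset R) :
    (Matrix.of fun i j => if i ∈ U then α i * w j + r i j else r i j).det =
      r.det + ∑ a ∈ U, α a * (r.updateRow a w).det := by
  induction U using Finset.induction_on with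
  | empty => simp; rfl
  | insert a U ha ih =>
    rw [Finset.sum_insert ha, add_left_comm, ← ih]
    obtain ⟨N, hN⟩ : ∃ N : Matrix R R K, N = Matrix.of fun i j => if i ∈ U then α i * w j + r i j
      else r i j := ⟨_, rfl⟩
    have hNa : N a = r a := by
      rw [hN]
      funext j
      simp only [Matrix.of_apply, if_neg ha]
    have h1 : (Matrix.of fun i j => if i ∈ insert a U then α i * w j + r i j else r i j) =
        N.updateRow a (α a • w + N a) := by
      ext i j
      rw [Matrix.updateRow_apply]
      split_ifs with hi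
      · rw [hi, hNa]
        simp only [Matrix.of_apply, Finset.mem_insert_self, if_true, Pi.add_apply, Pi.smul_apply,
          smul_eq_mul]
      · rw [hN]
        simp only [Matrix.of_apply, Finset.mem_insert, hi, false_or]
    rw [h1, Matrix.det_updateRow_add, Matrix.det_updateRow_smul, Matrix.updateRow_eq_self, ← hN]
    congr 2
    refine Matrix.det_eq_of_forall_row_eq_smul_add_const (fun i => if i ∈ U then α i else 0) a
      (by rw [if_neg ha]) fun i j => ?_
    rw [Matrix.updateRow_apply, Matrix.updateRow_apply, Matrix.updateRow_apply, if_pos rfl]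
    by_cases hi : i = a
    · rw [if_pos hi, if_pos hi, hi, if_neg ha, zero_mul, add_zero]
    · rw [if_neg hi, if_neg hi, hN]
      simp only [Matrix.of_apply]
      split_ifs
      · ring
      · ring

end det

variable {k K : Type} [Field k] [Field K] [Algebra k K] {R : Type} [Fintype R] [DecidableEq R]

theorem ge_det_cols (P : Place k K) (M : Matrix R R K) (κ u : R → ℤ)
    (h : ∀ i j, Ge P (κ j - u i) (M i j)) : Ge P (∑ j, κ j - ∑ i, u i) M.det := by
  rw [Matrix.det_apply']
  refine Ge.sum _ _ fun σ _ => ?_
  have h1 := Ge.prod (P := P) Finset.univ (fun i => M (σ i) i) (fun i => κ i - u (σ i))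
    fun i _ => h (σ i) i
  rw [Finset.sum_sub_distrib, Equiv.sum_comp σ u] at h1
  have h2 := (Ge.intCast (P := P) ((Equiv.Perm.sign σ : ℤˣ) : ℤ)).mul h1
  rwa [zero_add] at h2

theorem det_rank1 (P : Place k K) (M : Matrix R R K) (α w : R → K) (r : Matrix R R K)
    (hM : ∀ i j, M i j = α i * w j + r i j) {q e p : ℤ} (hq : 0 ≤ q) (hp : 0 ≤ p) (he : 0 ≤ e)
    (κ : R → ℤ) (hα : ∀ i, Ge P (-e) (α i)) (hw : ∀ j, Ge P (κ j - p) (w j))
    (hr : ∀ i j, Ge P (κ j - q) (r i j)) :
    Ge P (∑ j, κ j - Fintype.card R * q - e - p) M.det := by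
  have h1 : M = Matrix.of fun i j => if i ∈ Finset.univ then α i * w j + r i j else r i j := by
    ext i j
    rw [hM]
    simp
  rw [h1, det_expand]
  refine Ge.add ?_ (Ge.sum _ _ fun a _ => ?_)
  · have h2 := ge_det_cols P r κ (fun _ => q) hr
    rw [Finset.sum_const, Finset.card_univ, nsmul_eq_mul] at h2
    exact h2.mono (by omega)
  · have h2 := ge_det_cols P (r.updateRow a w) κ (fun i => if i = a then p else q) fun i j => by
      rw [Matrix.updateRow_apply]
      split_ifs
      · exact hw j
      · exact hr i j
    have h3 := (hα a).mul h2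
    refine h3.mono ?_
    have h4 : ∑ i : R, (if i = a then p else q) ≤ p + Fintype.card R * q := by
      rw [← Finset.add_sum_erase _ _ (Finset.mem_univ a), if_pos rfl]
      have h5 : ∑ i ∈ Finset.univ.erase a, (if i = a then p else q) ≤
          ∑ i ∈ Finset.univ.erase a, q := Finset.sum_le_sum fun i hi => by
        rw [if_neg (Finset.ne_of_mem_erase hi)]
      have h6 : ∑ i ∈ Finset.univ.erase a, q ≤ ∑ i : R, q :=
        Finset.sum_le_sum_of_subset_of_nonneg (Finset.erase_subset _ _) fun _ _ _ => hq
      rw [Finset.sum_const (s := Finset.univ), Finset.card_univ, nsmul_eq_mul] at h6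
      linarith
    linarith

end Pool.Agent.K6.H80.FV
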