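import Pool.Agent.K6.H80.FV.Local
import Pool.Agent.K6.H80.LV.Tan

/-!
The ranks, and the height inequality.
-/

set_option autoImplicit false
set_option linter.unusedSectionVars false

open MvPolynomial FF Pool.Agent.W603.LV Pool.Agent.W603.PV
open Pool.Agent.TH812.GV2 (Loc)
open Pool.Agent.K6.H80.LV (Ti OK St sM pw up up_le mn mn_pw mn_step pw_mem det_blk sM_up_mem po
  po_le exists_po exists_sc sc Tan exists_coords der_adjoin bp px px_apply bht po_finite
  hgt_le_bht)

namespace Pool.Agent.K6.H80.FV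

section tan

variable {k0 L : Type} [Field k0] [Field L] [Algebra k0 L] {σ S A T : Type} [Fintype σ]
  [Fintype S] [Fintype T] {β : σ → S} {wT : T → S → ℕ} {c : S → σ} {dg : A → S → ℕ}
  {D : A → (σ →₀ ℕ) → Derivation ℤ L L}

theorem tan_le [CharZero L] (hc : ∀ s, β (c s) = s) {x : σ → L} (hx : ∀ s, x (c s) = 1) {m : ℕ}
    (h : Algebra.trdeg k0 (IntermediateField.adjoin k0 (Set.range x)) ≤ m) :
    Module.finrank L (Tan k0 β x) ≤ m + Fintype.card S := by
  classical
  obtain ⟨I, hI, hIx⟩ := exists_coords x h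
  obtain ⟨J, hJ⟩ : ∃ J : Finset σ, J = I ∪ Finset.univ.image c := ⟨_, rfl⟩
  obtain ⟨ρ, hρ⟩ : ∃ ρ : Tan k0 β x →ₗ[L] (J → L), ∀ z i, ρ z i = z.1 i.1 :=
    ⟨{ toFun := fun z i => z.1 i.1
       map_add' := fun _ _ => rfl
       map_smul' := fun _ _ => rfl }, fun _ _ => rfl⟩
  have hinj : Function.Injective ρ := by
    rw [← LinearMap.ker_eq_bot, LinearMap.ker_eq_bot']
    rintro ⟨z, r, E, hE, hz⟩ h0
    have h1 : ∀ i ∈ J, z i = 0 := fun i hi => by
      have := congrFun h0 ⟨i, hi⟩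
      rw [hρ] at this
      exact this
    have hr : r = 0 := by
      funext s
      have h2 := h1 (c s) (by rw [hJ]; exact Finset.mem_union_right _ (by simp))
      rw [hz, hx, E.map_one_eq_zero, mul_one, add_zero, hc] at h2
      exact h2
    have hEI : ∀ i ∈ I, E (x i) = 0 := fun i hi => by
      have h2 := h1 i (by rw [hJ]; exact Finset.mem_union_left _ hi)
      rwa [hz, hr, Pi.zero_apply, zero_mul, zero_add] at h2
    have hx : ∀ i, E (x i) = 0 := fun i => der_adjoin E hE (T := x '' (I : Set σ)) (by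
      rintro _ ⟨j, hj, rfl⟩
      exact hEI j hj) (hIx i)
    apply Subtype.ext
    funext l
    change z l = 0
    rw [hz, hr, hx, Pi.zero_apply, zero_mul, add_zero]
  have h1 := LinearMap.finrank_le_finrank_of_injective hinj
  rw [Module.finrank_pi, Fintype.card_coe] at h1
  have h2 := Finset.card_union_le I (Finset.univ.image c)
  have h3 : (Finset.univ.image c).card ≤ Fintype.card S := Finset.card_image_le
  rw [← hJ] at h2
  omega

theorem tan_blk_le [CharZero L] (hc : ∀ s, β (c s) = s) {x : σ → L} (hx : ∀ s, x (c s) = 1)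
    {m : ℕ} (s : S)
    (h : Algebra.trdeg k0 (IntermediateField.adjoin k0 (x '' {l | β l = s})) ≤ m) :
    Module.finrank L ((Tan k0 β x).map (bp L β s)) ≤ m + 1 := by
  classical
  have hr : (x '' {l | β l = s}) = Set.range fun l : {l // β l = s} => x l := by
    ext z
    constructor
    · rintro ⟨l, hl, rfl⟩
      exact ⟨⟨l, hl⟩, rfl⟩
    · rintro ⟨⟨l, hl⟩, rfl⟩
      exact ⟨l, hl, rfl⟩
  rw [hr] at h
  obtain ⟨I, hI, hIx⟩ := exists_coords (fun l : {l // β l = s} => x l) h
  obtain ⟨J, hJ⟩ : ∃ J : Finset σ, J = I.image Subtype.val ∪ {c s} := ⟨_, rfl⟩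
  obtain ⟨ρ, hρ⟩ : ∃ ρ : (Tan k0 β x).map (bp L β s) →ₗ[L] (J → L), ∀ z i, ρ z i = z.1 i.1 :=
    ⟨{ toFun := fun z i => z.1 i.1
       map_add' := fun _ _ => rfl
       map_smul' := fun _ _ => rfl }, fun _ _ => rfl⟩
  have hinj : Function.Injective ρ := by
    rw [← LinearMap.ker_eq_bot, LinearMap.ker_eq_bot']
    rintro ⟨_, z, ⟨r, E, hE, hz⟩, rfl⟩ h0
    have h1 : ∀ i ∈ J, β i = s → z i = 0 := fun i hi his => by
      have := congrFun h0 ⟨i, hi⟩
      rw [hρ] at this
      change px β z s i = 0 at this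
      rwa [px_apply, if_pos his] at this
    have hr : r s = 0 := by
      have h2 := h1 (c s) (by rw [hJ]; exact Finset.mem_union_right _ (by simp)) (hc s)
      rw [hz, hx, E.map_one_eq_zero, mul_one, add_zero, hc] at h2
      exact h2
    have hEI : ∀ i ∈ I, E (x i) = 0 := fun i hi => by
      have h2 := h1 i (by
        rw [hJ]
        exact Finset.mem_union_left _ (Finset.mem_image_of_mem _ hi)) i.2
      rwa [hz, i.2, hr, zero_mul, zero_add] at h2
    have hx : ∀ i : {l // β l = s}, E (x i) = 0 := fun i =>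
      der_adjoin E hE (T := (fun l : {l // β l = s} => x l) '' (I : Set {l // β l = s})) (by
        rintro _ ⟨j, hj, rfl⟩
        exact hEI j hj) (hIx i)
    apply Subtype.ext
    funext l
    change px β z s l = 0
    rw [px_apply]
    split_ifs with hl
    · rw [hz, hl, hr, hx ⟨l, hl⟩, zero_mul, add_zero]
    · rfl
  have h1 := LinearMap.finrank_le_finrank_of_injective hinj
  rw [Module.finrank_pi, Fintype.card_coe] at h1
  have h2 := Finset.card_union_le (I.image Subtype.val) {c s}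
  have h3 : (I.image Subtype.val).card ≤ I.card := Finset.card_image_le
  rw [← hJ, Finset.card_singleton] at h2
  omega

/-- The projection to the main coordinates. -/
def pr (L : Type) [Field L] (σ T : Type) : (σ ⊕ T → L) →ₗ[L] (σ → L) where
  toFun z := z ∘ Sum.inl
  map_add' _ _ := rfl
  map_smul' _ _ := rfl

theorem full_le_tan (hDk : ∀ a I (r : k0), D a I (algebraMap k0 L r) = 0) (y : σ ⊕ T → L) :
    (Full β wT c dg D y).map (pr L σ T) ≤ Tan k0 β (y ∘ Sum.inl) := by
  classical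
  have hE : ∀ a I, pr L σ T (Ev D y a I) ∈ Tan k0 β (y ∘ Sum.inl) := fun a I =>
    ⟨0, D a I, hDk a I, fun l => by rw [Pi.zero_apply, zero_mul, zero_add]; rfl⟩
  rw [Submodule.map_le_iff_le_comap, Full, Submodule.span_le]
  rintro _ (⟨o, rfl⟩ | ⟨a, I, hI, rfl⟩)
  · rcases o with s | t
    · refine ⟨fun s' => if s' = s then 1 else 0, 0, fun _ => rfl, fun l => ?_⟩
      change gx β wT y s (Sum.inl l) = _
      rw [gx_inl]
      simp only [Derivation.zero_apply, add_zero, ite_mul, one_mul, zero_mul,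
        Function.comp_apply]
    · change pr L σ T (wv β wT c dg D y (Sum.inr t)) ∈ Tan k0 β (y ∘ Sum.inl)
      simp only [wv, tv]
      split_ifs
      · rw [map_sub, map_smul, map_smul]
        exact sub_mem (Submodule.smul_mem _ _ (hE _ _)) (Submodule.smul_mem _ _ (hE _ _))
      · rw [map_zero]
        exact zero_mem _
  · exact hE a I

/-- The dimension of the space of the vector fields. -/
theorem rank_le [CharZero L] (hc : ∀ s, β (c s) = s)
    (hDk : ∀ a I (r : k0), D a I (algebraMap k0 L r) = 0) {y : σ ⊕ T → L}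
    (hx : ∀ s, y (Sum.inl (c s)) = 1) {m : ℕ}
    (h : Algebra.trdeg k0 (IntermediateField.adjoin k0 (Set.range (y ∘ Sum.inl))) ≤ m) :
    Module.finrank L (Full β wT c dg D y) ≤ m + Fintype.card S + Fintype.card T := by
  classical
  have h1 := tan_le (k0 := k0) (β := β) hc (x := y ∘ Sum.inl) hx h
  obtain ⟨ρ, hρ⟩ : ∃ ρ : Full β wT c dg D y →ₗ[L] (Tan k0 β (y ∘ Sum.inl)) × (T → L),
      ∀ z, (((ρ z).1 : σ → L) = z.1 ∘ Sum.inl ∧ (ρ z).2 = z.1 ∘ Sum.inr) := by
    refine ⟨{ toFun := fun z => (⟨z.1 ∘ Sum.inl, full_le_tan hDk y ⟨z.1, z.2, rfl⟩⟩,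
                z.1 ∘ Sum.inr)
              map_add' := fun _ _ => rfl
              map_smul' := fun _ _ => rfl }, fun z => ⟨rfl, rfl⟩⟩
  have hinj : Function.Injective ρ := by
    rw [← LinearMap.ker_eq_bot, LinearMap.ker_eq_bot']
    intro z h0
    obtain ⟨h2, h3⟩ := hρ z
    rw [h0] at h2 h3
    apply Subtype.ext
    funext γ
    rcases γ with l | t
    · exact (congrFun h2 l).symm
    · exact (congrFun h3 t).symm
  have h2 := LinearMap.finrank_le_finrank_of_injective hinj
  rw [Module.finrank_prod, Module.finrank_pi] at h2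
  omega

/-- The projection to a block of the main coordinates. -/
theorem rank_le_blk [CharZero L] (hc : ∀ s, β (c s) = s)
    (hDk : ∀ a I (r : k0), D a I (algebraMap k0 L r) = 0) {y : σ ⊕ T → L}
    (hx : ∀ s, y (Sum.inl (c s)) = 1) {m : ℕ} (s : S)
    (h : Algebra.trdeg k0 (IntermediateField.adjoin k0 ((y ∘ Sum.inl) '' {l | β l = s})) ≤ m) :
    Module.finrank L (((Full β wT c dg D y).map (pr L σ T)).map (bp L β s)) ≤ m + 1 :=
  (Submodule.finrank_mono (Submodule.map_mono (full_le_tan hDk y))).trans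
    (tan_blk_le (k0 := k0) hc (x := y ∘ Sum.inl) hx s h)

end tan

section num

variable {K : Type} [Field K] {σ S A T : Type} [Fintype σ] [Fintype S] [Fintype T]
  {β : σ → S} {wT : T → S → ℕ} {c : S → σ} {dg : A → S → ℕ}
  {D : A → (σ →₀ ℕ) → Derivation ℤ K K}

open scoped Classical in
/-- The number of the rows. -/
theorem num [Fintype A] {b : Finset (Rx σ S A ⊕ A)}
    (hbV : ∀ s, Sum.inl (Sum.inl s) ∈ b) (hb : ∀ a, Sum.inr a ∈ b) (s : S) :
    tw b s + Fintype.card A + Fintype.card S ≤ b.card := by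
  obtain ⟨b1, hb1⟩ : ∃ b1 : Finset (Rx σ S A ⊕ A), b1 = (b.filter fun i => ft i s ≠ 0) :=
    ⟨_, rfl⟩
  obtain ⟨b2, hb2⟩ : ∃ b2 : Finset (Rx σ S A ⊕ A), b2 = Finset.univ.image
    (fun o : A ⊕ S => match o with
      | Sum.inl a => (Sum.inr a : Rx σ S A ⊕ A)
      | Sum.inr s => Sum.inl (Sum.inl s)) := ⟨_, rfl⟩
  have h2 : b2.card = Fintype.card A + Fintype.card S := by
    rw [hb2, Finset.card_image_of_injective, Finset.card_univ, Fintype.card_sum]
    rintro (a | s) (a' | s') h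
    all_goals simp_all
  have h3 : Disjoint b1 b2 := by
    rw [Finset.disjoint_left]
    intro i hi hi'
    rw [hb1, Finset.mem_filter] at hi
    obtain ⟨-, ht⟩ := hi
    rw [hb2, Finset.mem_image] at hi'
    obtain ⟨(a | s), -, rfl⟩ := hi'
    · exact ht rfl
    · exact ht rfl
  have h4 : b1 ∪ b2 ⊆ b := by
    refine Finset.union_subset ?_ ?_
    · rw [hb1]; exact Finset.filter_subset _ _
    · rw [hb2]
      intro i hi
      obtain ⟨(a | s), -, rfl⟩ := Finset.mem_image.1 hi
      · exact hb a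
      · exact hbV s
  have h5 := Finset.card_le_card h4
  rw [Finset.card_union_of_disjoint h3, h2] at h5
  have h6 : tw b s ≤ b1.card := by
    unfold tw
    rw [Finset.sum_coe_sort b (fun i => ft i s), hb1, Finset.card_filter]
    refine Finset.sum_le_sum fun i _ => ?_
    rcases i with (s' | t) | a
    · simp [ft]
    · simp only [ft]
      split_ifs <;> simp_all
    · simp [ft]
  omega

open scoped Classical in
/-- The number of the columns of a block. -/
theorem col_le {y : σ ⊕ T → K} {I : A → σ →₀ ℕ} (hI : ∀ a, I a ∈ St β c (dg a))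
    {b : Finset (Rx σ S A ⊕ A)} (τ : b → σ ⊕ T) (hdet : (mx β wT c dg D y I b τ).det ≠ 0) (s : S)
    {N : ℕ} (hN : Module.finrank K (((Full β wT c dg D y).map (pr K σ T)).map (bp K β s)) ≤ N) :
    col β τ s ≤ N := by
  obtain ⟨In, hIn⟩ : ∃ In : σ ⊕ T → Prop, ∀ γ, In γ ↔ ∃ l, γ = Sum.inl l ∧ β l = s :=
    ⟨_, fun _ => Iff.rfl⟩
  obtain ⟨M, hM⟩ : ∃ M : Matrix b {j : b // In (τ j)} K,
    M = Matrix.of fun i j => mx β wT c dg D y I b τ i j.1 := ⟨_, rfl⟩
  have h1 : LinearIndependent K (mx β wT c dg D y I b τ).col :=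
    Matrix.linearIndependent_cols_of_det_ne_zero hdet
  have h2 : LinearIndependent K M.transpose.row := by
    have h3 := h1.comp (fun j : {j : b // In (τ j)} => j.1) Subtype.val_injective
    convert h3 using 1
    rw [hM]
    rfl
  have h3 := h2.rank_matrix
  rw [Matrix.rank_transpose, Matrix.rank_eq_finrank_span_row, Fintype.card_subtype] at h3
  have h4 : col β τ s = (Finset.univ.filter fun j : b => In (τ j)).card := by
    unfold col
    rw [Finset.card_filter]
    refine Finset.sum_congr rfl fun j _ => ?_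
    rcases hj : τ j with l | t
    · by_cases h : β l = s
      · rw [if_pos ((hIn _).2 ⟨l, rfl, h⟩)]
        simp [gw, h]
      · rw [if_neg fun h' => ?_]
        · simp [gw, h]
        · obtain ⟨l', hl', h5⟩ := (hIn _).1 h'
          rw [← Sum.inl_injective hl'] at h5
          exact h h5
    · rw [if_neg fun h' => ?_]
      · simp [gw]
      · obtain ⟨l', hl', -⟩ := (hIn _).1 h'
        simp at hl'
  rw [h4, ← h3]
  refine le_trans ?_ hN
  have hl : ∀ j : {j : b // In (τ j)}, ∃ l, τ j.1 = Sum.inl l ∧ β l = s := fun j =>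
    (hIn _).1 j.2
  choose l hl1 hl2 using hl
  obtain ⟨ρ, hρ⟩ : ∃ ρ : (σ → K) →ₗ[K] ({j : b // In (τ j)} → K), ∀ z j, ρ z j = z (l j) :=
    ⟨{ toFun := fun z j => z (l j)
       map_add' := fun _ _ => rfl
       map_smul' := fun _ _ => rfl }, fun _ _ => rfl⟩
  refine le_trans (Submodule.finrank_mono
    (t := (((Full β wT c dg D y).map (pr K σ T)).map (bp K β s)).map ρ) ?_)
    (Submodule.finrank_map_le ρ _)
  rw [Submodule.span_le]
  rintro _ ⟨i, rfl⟩
  refine ⟨bp K β s (pr K σ T (vv β wT c dg D y I i)), ⟨_, ⟨_, vv_mem_full y hI i, rfl⟩, rfl⟩, ?_⟩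
  funext j
  rw [hρ]
  change px β (fun l => vv β wT c dg D y I i (Sum.inl l)) s (l j) = M i j
  rw [px_apply, if_pos (hl2 j), ← hl1 j, hM]
  rfl

end num

section glob

variable {k K : Type} [Field k] [Field K] [Algebra k K] {σ S A T : Type} [Fintype σ] [Fintype S]
  [Fintype T] [IsAlgClosed k] [CharZero k] [IsFF k K]
  {β : σ → S} {wT : T → S → ℕ} {c : S → σ} {dg : A → S → ℕ}
  {D : A → (σ →₀ ℕ) → Derivation ℤ K K}

/-- The sum of the local inequalities. -/
theorem sum_places {x : σ → K} (hx : ∀ s, x (c s) = 1) (hc : ∀ s, β (c s) = s) {Θ : K}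
    {α : S → ℤ} {C : Place k K → ℤ} (hC : {P | C P ≠ 0}.Finite)
    (h : ∀ P : Place k K, ∑ s, (- α s) * po β P x s - C P ≤ P.ord Θ) :
    ∑ s, α s * bht k β x s ≤ ∑ᶠ P, C P := by
  classical
  have hx0 : ∀ s, x (c s) ≠ 0 := fun s => by rw [hx]; exact one_ne_zero
  have hp : ∀ s, {P : Place k K | po β P x s ≠ 0}.Finite := fun s => po_finite (hx0 s) (hc s)
  obtain ⟨T, hT⟩ := exists_supp (k := k) (Finset.univ : Finset Unit) (fun _ => Θ)
  obtain ⟨U, hU⟩ : ∃ U : Finset (Place k K),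
    U = T ∪ ((Finset.univ.biUnion fun s => (hp s).toFinset) ∪ hC.toFinset) := ⟨_, rfl⟩
  have h1 : ∑ P ∈ U, P.ord Θ = 0 := sum_ord_finset _ _ fun P hP => by
    rw [hU]; exact Finset.mem_union_left _ (hT () (Finset.mem_univ _) P hP)
  have h2 : ∀ s, bht k β x s = - ∑ P ∈ U, po β P x s := by
    intro s
    unfold bht
    rw [finsum_eq_sum_of_support_subset (s := U)]
    intro P hP
    rw [hU]
    exact Finset.mem_union_right _ (Finset.mem_union_left _ (Finset.mem_biUnion.2
      ⟨s, Finset.mem_univ _, (hp s).mem_toFinset.2 hP⟩))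
  have h3 : ∑ᶠ P, C P = ∑ P ∈ U, C P := by
    rw [finsum_eq_sum_of_support_subset (s := U)]
    intro P hP
    rw [hU]
    exact Finset.mem_union_right _ (Finset.mem_union_right _ (hC.mem_toFinset.2 hP))
  have h4 := Finset.sum_le_sum (s := U) fun P _ => h P
  rw [Finset.sum_sub_distrib, h1, ← h3, Finset.sum_comm] at h4
  have h5 : ∀ s, ∑ P ∈ U, (- α s) * po β P x s = α s * bht k β x s := fun s => by
    rw [h2, ← Finset.mul_sum]
    ring
  rw [Finset.sum_congr rfl fun s _ => h5 s] at h4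
  linarith

theorem bht_nonneg {x : σ → K} (hx : ∀ s, x (c s) = 1) (hc : ∀ s, β (c s) = s) (s : S) :
    0 ≤ bht k β x s :=
  (hgt_nonneg _).trans (hgt_le_bht (k := k) (β := β) (hx s) (hc s) (hc s))

open scoped Classical in
/-- The height inequality. -/
theorem ineq [Fintype A] (hc : ∀ s, β (c s) = s) {y : σ ⊕ T → K}
    (hx : ∀ s, y (Sum.inl (c s)) = 1) (hz : ∀ t, y (Sum.inr t) ≠ 0) {m : ℕ} {μ : S → ℕ}
    (hrk : Module.finrank K (Full β wT c dg D y) ≤ m + Fintype.card S + Fintype.card T)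
    (hrkb : ∀ s, Module.finrank K
      (((Full β wT c dg D y).map (pr K σ T)).map (bp K β s)) ≤ μ s + 1)
    {φ : A → σ ⊕ T → K} (hφ : Fn β wT c dg D y φ)
    {q e : Place k K → ℤ} (hq0 : ∀ P, 0 ≤ q P) (he0 : ∀ P, 0 ≤ e P)
    (hqf : {P | q P ≠ 0}.Finite) (hef : {P | e P ≠ 0}.Finite)
    (hdir : ∀ P : Place k K, ∀ a, ∀ I ∈ St β c (dg a), Ge P (-e P) (D a I (unif P)))
    (hloss : ∀ (P : Place k K) δ, Loc P δ → ∀ a, ∀ I ∈ St β c (dg a), ∀ g f, Ge P g f →
      Ge P (g - q P) (D a I f - D a I (unif P) * δ f)) :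
    ∑ s, ((∑ a, dg a s : ℕ) + Fintype.card A - Fintype.card T - μ s - m - 1 : ℤ) *
        bht k β (y ∘ Sum.inl) s ≤
      ∑ᶠ P : Place k K, ((if ∃ t, P.ord (y (Sum.inr t)) ≠
        ∑ s, (wT t s : ℤ) * po β P (y ∘ Sum.inl) s then 1 else 0) +
          (e P + (m + Fintype.card S + Fintype.card T : ℕ) * q P)) := by
  have hx0 : ∀ s, y (Sum.inl (c s)) ≠ 0 := fun s => by rw [hx]; exact one_ne_zero
  have hs0 : LinearIndepOn K (vv β wT c dg D y fun a => pw c (dg a))
      (Set.range fun s : S => (Sum.inl (Sum.inl s) : Rx σ S A ⊕ A)) := by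
    rw [← Set.image_univ]
    refine LinearIndepOn.image_of_comp _ _ ?_
    rw [linearIndepOn_univ_iff, Fintype.linearIndependent_iff]
    intro r hr s
    have h2 := congrFun hr (Sum.inl (c s))
    simp only [Finset.sum_apply, Function.comp_apply, vv, wv, Pi.smul_apply, smul_eq_mul,
      Pi.zero_apply] at h2
    rw [sum_gx_inl, hc, hx, mul_one] at h2
    exact h2
  obtain ⟨b, hbV, hb, hbi, hspan, hcard⟩ := exists_rows hc hx0 hφ hs0
  obtain ⟨τ, hτ⟩ := Pool.Agent.TH145.GC.exists_minor _ hbi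
  have hdet : (mx β wT c dg D y (fun a => pw c (dg a)) b τ).det ≠ 0 := by
    unfold mx
    convert hτ
  have hbc : b.card ≤ m + Fintype.card S + Fintype.card T := by rw [← hcard]; exact hrk
  have hcol := fun s => col_le (fun a => pw_mem hc _) τ hdet s (hrkb s)
  obtain ⟨C, hC⟩ : ∃ C : Place k K → ℤ, ∀ P, C P = (if ∃ t, P.ord (y (Sum.inr t)) ≠
        ∑ s, (wT t s : ℤ) * po β P (y ∘ Sum.inl) s then 1 else 0) +
          (e P + (m + Fintype.card S + Fintype.card T : ℕ) * q P) := ⟨_, fun _ => rfl⟩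
  simp only [← hC]
  have hp : ∀ s, {P : Place k K | po β P (y ∘ Sum.inl) s ≠ 0}.Finite := fun s =>
    po_finite (hx0 s) (hc s)
  have hCf : {P | C P ≠ 0}.Finite := by
    obtain ⟨U, hU⟩ := exists_supp (k := k) (Finset.univ : Finset T) fun t => y (Sum.inr t)
    refine (((U.finite_toSet.union (Set.finite_iUnion hp)).union hqf).union hef).subset
      fun P hP => ?_
    by_contra hcon
    simp only [Set.mem_union, Set.mem_iUnion, Set.mem_ofPred_eq, not_or, not_exists, not_not,
      Finset.mem_coe] at hcon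
    obtain ⟨⟨⟨h1, h2⟩, h3⟩, h4⟩ := hcon
    apply hP
    rw [hC, h3, h4, if_neg, mul_zero, add_zero, add_zero]
    rintro ⟨t, ht⟩
    apply ht
    rw [Finset.sum_eq_zero fun s _ => by rw [h2, mul_zero]]
    by_contra h
    exact h1 (hU t (Finset.mem_univ _) P h)
  refine le_trans ?_ (sum_places (x := y ∘ Sum.inl) hx hc
    (α := fun s => (∑ a, dg a s : ℕ) - (col β τ s + tw b s : ℕ)) (C := C) hCf (fun P => ?_)
    (Θ := (mx β wT c dg D y (fun a => pw c (dg a)) b τ).det /
        ((∏ a, mn (y ∘ Sum.inl) (pw c (dg a))) * ∏ j : b, ex y (τ j))))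
  · refine Finset.sum_le_sum fun s _ => mul_le_mul_of_nonneg_right ?_
      (bht_nonneg (x := y ∘ Sum.inl) hx hc s)
    have h1 := num hbV hb s
    have h1' := hcol s
    push_cast
    have h2 : ((tw b s : ℕ) : ℤ) + Fintype.card A + Fintype.card S ≤ b.card := by
      exact_mod_cast h1
    have h3 : ((col β τ s : ℕ) : ℤ) ≤ μ s + 1 := by exact_mod_cast h1'
    have h4 : (b.card : ℤ) ≤ m + Fintype.card S + Fintype.card T := by exact_mod_cast hbc
    linarith
  · obtain ⟨δ, hδ⟩ := Pool.Agent.TH812.GV2.exists_locd P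
    have h1 := local_est (wT := wT) hc hδ (hq0 P) (he0 P) hx0 hz (hdir P) (hloss P δ hδ)
      hbV hb τ hspan hdet
    refine le_trans ?_ h1
    have h2 : (b.card : ℤ) * q P ≤ (m + Fintype.card S + Fintype.card T : ℕ) * q P :=
      mul_le_mul_of_nonneg_right (by exact_mod_cast hbc) (hq0 P)
    have h3 : ∑ s, (-(((∑ a, dg a s : ℕ) : ℤ) - (col β τ s + tw b s : ℕ))) *
        po β P (y ∘ Sum.inl) s =
        ∑ s, ((col β τ s + tw b s : ℕ) - (∑ a, dg a s : ℕ)) * po β P (y ∘ Sum.inl) s :=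
      Finset.sum_congr rfl fun s _ => by ring
    rw [h3, hC]
    linarith

end glob

end Pool.Agent.K6.H80.FV
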