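import Pool.Agent.K6.H80.FV.Setup

/-!
The height inequality for generic members of linear systems over function fields.
-/

set_option autoImplicit false
set_option linter.unusedSectionVars false

open MvPolynomial FF Pool.Agent.W603.LV Pool.Agent.W603.PV Pool.Agent.W603.CZ
open Pool.Agent.TH812.GV2 (Loc GoodS exists_duals2 sum_under)
open Pool.Agent.TH812.GV (sum_loss)
open Pool.Agent.K6.H80.LV (Ti OK St sM pw up up_le mn mn_pw mn_step pw_mem det_blk sM_up_mem po
  po_le exists_po exists_sc sc Tan exists_coords der_adjoin bp px px_apply bht po_finite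
  hgt_le_bht chain der_coeff DimB Sys finite_st aeval_mn eval_comb)

namespace Pool.Agent.K6.H80.FV

/-- The places at which the point `x` meets one of the divisors `Fm (ι t) = 0`. -/
def Meet (k : Type) {F L σ S A T : Type} [Field k] [Field F] [Field L] [Algebra k L] [Algebra F L]
    [Fintype S] (β : σ → S) (dg : A → S → ℕ) (Fm : A → MvPolynomial σ F) (ι : T → A)
    (x : σ → L) : Set (Place k L) :=
  {P | ∃ t, ∑ s, (dg (ι t) s : ℤ) * po β P x s < P.ord (aeval x (Fm (ι t)))}

theorem main {k0 k R0 F : Type} [Field k0] [Field k] [Field R0] [Field F] [IsAlgClosed k]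
    [CharZero k] [Algebra k0 k] [Algebra k F] [Algebra k0 F] [IsScalarTower k0 k F]
    [Algebra k0 R0] [Algebra R0 F] [IsScalarTower k0 R0 F] [IsFF k F]
    (hfg : ∃ S : Finset R0, IntermediateField.adjoin k0 (S : Set R0) = ⊤)
    {σ S A T : Type} [Fintype σ] [Fintype S] [Fintype A] [Fintype T]
    {β : σ → S} {c : S → σ} {dg : A → S → ℕ} (hc : ∀ s, β (c s) = s) {m : ℕ} {μ : S → ℕ}
    (V : Set (MvPolynomial σ R0)) (hV : DimB R0 β V m μ)
    {J : A → Type} [∀ a, Fintype (J a)] (P : ∀ a, J a → MvPolynomial σ R0)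
    (hPm : ∀ a j, IsMulti β (dg a) (P a j))
    (hP : ∀ a, ∀ I ∈ St β c (dg a), Sys β V (P a) I)
    (cf : ∀ a, J a → F) (hind : AlgebraicIndependent R0 fun p : (Σ a, J a) => cf p.1 p.2)
    {Fm : A → MvPolynomial σ F}
    (hF : ∀ a, Fm a = ∑ j, C (cf a j) * map (algebraMap R0 F) (P a j)) (ι : T → A) :
    ∃ C : ℕ, ∀ (L : Type) [Field L] [Algebra k L] [Algebra F L] [Algebra R0 L]
      [IsScalarTower k F L] [IsScalarTower R0 F L] [FiniteDimensional F L] (x : σ → L),
      (∀ s, x (c s) = 1) → (∀ f ∈ V, aeval x f = 0) → (∀ t, aeval x (Fm (ι t)) ≠ 0) →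
      (∀ a, IsAlgebraic (IntermediateField.adjoin R0
        (Set.range x ∪ Set.range fun t => aeval x (Fm (ι t)))) (aeval x (Fm a))) →
      ∑ s, ((∑ a, dg a s : ℕ) + Fintype.card A - Fintype.card T - μ s - m - 1 : ℤ) *
        bht k β x s ≤ (Meet k β dg Fm ι x).ncard + canDeg k L + C * Module.finrank F L := by
  classical
  have hFz : CharZero F := charZero_of_injective_algebraMap (algebraMap k F).injective
  obtain ⟨D0, hD0g, hD0k, hD0⟩ := exists_duals2 (k0 := k0) (k := k) (F0 := R0) (F := F) hfg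
    (fun p : (Σ a, J a) => cf p.1 p.2) hind
  choose! e he using hP
  -- the derivations
  obtain ⟨D, hD⟩ : ∃ D : A → (σ →₀ ℕ) → Derivation ℤ F F, ∀ a I,
      D a I = ∑ j : J a, algebraMap R0 F (e a I j) • D0 ⟨a, j⟩ := ⟨_, fun _ _ => rfl⟩
  have hDa : ∀ a I f, D a I f = ∑ j : J a, algebraMap R0 F (e a I j) * D0 ⟨a, j⟩ f := by
    intro a I f
    rw [hD, ← Derivation.coeFnAddMonoidHom_apply, map_sum, Finset.sum_apply]
    rfl
  have hgood : ∀ a I, GoodS k (D a I) := by
    intro a I
    rw [hD]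
    exact GoodS.sum _ _ fun j _ => (hD0g _).smul _
  have hDk : ∀ a I (r : R0), D a I (algebraMap R0 F r) = 0 := by
    intro a I r
    rw [hDa]
    exact Finset.sum_eq_zero fun j _ => by rw [hD0k, mul_zero]
  have hDv : ∀ a I b j, D a I (cf b j) = if h : a = b then algebraMap R0 F (e b I j) else 0 := by
    intro a I b j
    rw [hDa]
    by_cases hab : a = b
    · subst hab
      rw [dif_pos rfl, Finset.sum_eq_single j]
      · rw [(hD0 ⟨a, j⟩ ⟨a, j⟩).1 rfl, mul_one]
      · intro j' _ hj'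
        rw [(hD0 ⟨a, j'⟩ ⟨a, j⟩).2, mul_zero]
        intro h
        exact hj' (eq_of_heq (Sigma.mk.inj_iff.1 h).2)
      · intro h; exact absurd (Finset.mem_univ _) h
    · rw [dif_neg hab]
      refine Finset.sum_eq_zero fun j' _ => ?_
      rw [(hD0 ⟨a, j'⟩ ⟨b, j⟩).2, mul_zero]
      intro h
      exact hab (congrArg Sigma.fst h)
  -- the loss
  choose q hq0 hqf hq using hgood
  have hfinI : ∀ a, (St β c (dg a)).Finite := fun a => finite_st β c (dg a)
  obtain ⟨Q, hQ⟩ : ∃ Q : Place k F → ℤ, ∀ v, Q v = ∑ a, ∑ I ∈ (hfinI a).toFinset, q a I v :=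
    ⟨_, fun _ => rfl⟩
  have hQ0 : ∀ v, 0 ≤ Q v := fun v => by
    rw [hQ]
    exact Finset.sum_nonneg fun a _ => Finset.sum_nonneg fun I _ => hq0 a I v
  have hQf : {v | Q v ≠ 0}.Finite := by
    have h1 : (⋃ a : A, ⋃ I ∈ (hfinI a).toFinset, {v | q a I v ≠ 0}).Finite :=
      Set.finite_iUnion fun a => (hfinI a).toFinset.finite_toSet.biUnion fun I _ => hqf a I
    refine h1.subset fun v hv => ?_
    by_contra hcon
    simp only [Set.mem_iUnion, not_exists, Set.mem_ofPred_eq, not_not] at hcon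
    apply hv
    rw [hQ]
    exact Finset.sum_eq_zero fun a _ => Finset.sum_eq_zero fun I hI => hcon a I hI
  have hQle : ∀ a, ∀ I ∈ St β c (dg a), ∀ v, q a I v ≤ Q v := by
    intro a I hI v
    rw [hQ]
    refine le_trans ?_ (Finset.single_le_sum (f := fun a => ∑ I ∈ (hfinI a).toFinset, q a I v)
      (fun a _ => Finset.sum_nonneg fun I _ => hq0 a I v) (Finset.mem_univ a))
    exact Finset.single_le_sum (f := fun I => q a I v) (fun I _ => hq0 a I v)
      (by rw [Set.Finite.mem_toFinset]; exact hI)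
  obtain ⟨C1, hC1⟩ := sum_loss (k := k) hQ0 hQf
  obtain ⟨C3, hC3⟩ := sum_under (k := k) hQ0 hQf
  -- the places at which the coefficients are not integral
  choose S0 hS0 using fun t => exists_supp (k := k) (Fm (ι t)).support fun u => (Fm (ι t)).coeff u
  obtain ⟨S1, hS1⟩ : ∃ S1 : Finset (Place k F), S1 = Finset.univ.biUnion S0 := ⟨_, rfl⟩
  have hS1c : ∀ t u v, v ∉ S1 → Ge v 0 ((Fm (ι t)).coeff u) := by
    intro t u v hv
    by_cases hu : u ∈ (Fm (ι t)).support
    · right
      have h1 : v.ord ((Fm (ι t)).coeff u) = 0 := by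
        by_contra h
        apply hv
        rw [hS1]
        exact Finset.mem_biUnion.2 ⟨t, Finset.mem_univ _, hS0 t u hu v h⟩
      rw [h1]
    · exact Or.inl (notMem_support_iff.1 hu)
  obtain ⟨C2, hC2⟩ : ∃ C2 : ℕ, (C2 : ℤ) = ∑ v ∈ S1, hgt k (unif v) :=
    ⟨(∑ v ∈ S1, hgt k (unif v)).toNat, Int.toNat_of_nonneg
      (Finset.sum_nonneg fun _ _ => hgt_nonneg _)⟩
  refine ⟨C2 + C1 + (m + Fintype.card S + Fintype.card T) * C3, ?_⟩
  intro L _ _ _ _ _ _ _ x hx hxV hxT hxA
  have hL : IsFF k L := isFF_of_finite (F := F)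
  have hLz : CharZero L := charZero_of_injective_algebraMap (algebraMap k L).injective
  choose D' hD' hDl using fun a I => hq a I L
  obtain ⟨hqfin, hqsum⟩ := hC1 L
  obtain ⟨hufin, husum⟩ := hC3 L
  obtain ⟨el, hel⟩ : ∃ el : Place k L → ℤ, ∀ P, el P =
    ((ram F P : ℤ) - 1) + ram F P * Q (under F P) := ⟨_, fun _ => rfl⟩
  obtain ⟨ql, hql⟩ : ∃ ql : Place k L → ℤ, ∀ P, ql P = ram F P * Q (under F P) :=
    ⟨_, fun _ => rfl⟩
  have hql0 : ∀ P, 0 ≤ ql P := fun P => by
    rw [hql]
    exact mul_nonneg (by positivity) (hQ0 _)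
  have hel0 : ∀ P, 0 ≤ el P := fun P => by
    rw [hel]
    have h1 := (ram_spec (F := F) P).1
    have h2 := hql0 P
    rw [hql] at h2
    omega
  have hdir : ∀ P : Place k L, ∀ a, ∀ I ∈ St β c (dg a), Ge P (-el P) (D' a I (unif P)) := by
    intro P a I hI
    rw [hel]
    refine (hDl a I P).1.mono ?_
    have h1 := hQle a I hI (under F P)
    have h2 : (0 : ℤ) ≤ ram F P := by positivity
    nlinarith
  have hloss : ∀ (P : Place k L) δ, Loc P δ → ∀ a, ∀ I ∈ St β c (dg a), ∀ g f, Ge P g f →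
      Ge P (g - ql P) (D' a I f - D' a I (unif P) * δ f) := by
    intro P δ hδ a I hI g f hf
    rw [hql]
    refine ((hDl a I P).2 δ hδ g f hf).mono ?_
    have h1 := hQle a I hI (under F P)
    have h2 : (0 : ℤ) ≤ ram F P := by positivity
    nlinarith
  have hDk' : ∀ a I (r : R0), D' a I (algebraMap R0 L r) = 0 := by
    intro a I r
    rw [IsScalarTower.algebraMap_apply R0 F L, hD', hDk, map_zero]
  -- the point
  obtain ⟨y, hy⟩ : ∃ y : σ ⊕ T → L, y = Sum.elim x fun t => aeval x (Fm (ι t)) := ⟨_, rfl⟩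
  have hyx : y ∘ Sum.inl = x := by rw [hy]; rfl
  have hyl : ∀ l, y (Sum.inl l) = x l := fun l => by rw [hy]; rfl
  have hyr : ∀ t, y (Sum.inr t) = aeval x (Fm (ι t)) := fun t => by rw [hy]; rfl
  have hyrange : Set.range y = Set.range x ∪ Set.range fun t => aeval x (Fm (ι t)) := by
    rw [hy, Set.Sum.elim_range]
  obtain ⟨Fl, hFl⟩ : ∃ Fl : A → MvPolynomial σ L, ∀ a, Fl a = map (algebraMap F L) (Fm a) :=
    ⟨_, fun _ => rfl⟩
  have hFlx : ∀ a, eval x (Fl a) = aeval x (Fm a) := fun a => by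
    rw [hFl, eval_map, aeval_def]
  have hFlc : ∀ a, Fl a = ∑ j, C (algebraMap F L (cf a j)) * map (algebraMap R0 L) (P a j) := by
    intro a
    rw [hFl, hF, map_sum]
    refine Finset.sum_congr rfl fun j _ => ?_
    rw [map_mul, map_C, map_map, ← IsScalarTower.algebraMap_eq]
  obtain ⟨φ, hφ⟩ := exists_Fn (k0 := R0) (wT := fun t => dg (ι t)) (dg := dg) hc (y := y)
    (fun s => by rw [hyl]; exact hx s) P (fun a j => algebraMap F L (cf a j)) hFlc hDk'
    (fun a b I hI => by
      rw [hyx]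
      have h1 : ∀ j, D' b I (algebraMap F L (cf a j)) =
          if h : b = a then algebraMap R0 L (e a I j) else 0 := fun j => by
        rw [hD', hDv]
        split_ifs
        · rw [← IsScalarTower.algebraMap_apply]
        · rw [map_zero]
      simp only [h1]
      by_cases hab : b = a
      · subst hab
        rw [if_pos rfl, ← aeval_mn (k' := R0), he b I hI L x (fun s => ⟨c s, hc s, hx s⟩) hxV]
        exact Finset.sum_congr rfl fun j _ => by rw [dif_pos rfl]
      · rw [if_neg (Ne.symm hab)]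
        exact Finset.sum_eq_zero fun j _ => by rw [dif_neg hab, zero_mul])
    (fun a => by
      rw [hyx, hyrange, hFlx]
      exact hxA a)
  obtain ⟨htr, htrb⟩ := hV L x (fun s => ⟨c s, hc s, hx s⟩) hxV
  have hrk := rank_le (k0 := R0) (wT := fun t => dg (ι t)) (dg := dg) hc hDk' (y := y)
    (fun s => by rw [hyl]; exact hx s) (m := m) (by rw [hyx]; exact htr)
  have hrkb := fun s => rank_le_blk (k0 := R0) (wT := fun t => dg (ι t)) (dg := dg) hc hDk'
    (y := y) (fun s => by rw [hyl]; exact hx s) s (m := μ s) (by rw [hyx]; exact htrb s)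
  have hef : {P | el P ≠ 0}.Finite := by simp only [hel]; exact hqfin
  have hqf' : {P | ql P ≠ 0}.Finite := by simp only [hql]; exact hufin
  have key := ineq (k := k) hc (y := y) (wT := fun t => dg (ι t)) (dg := dg)
    (fun s => by rw [hyl]; exact hx s) (fun t => by rw [hyr]; exact hxT t) hrk hrkb hφ
    hql0 hel0 hqf' hef hdir hloss
  rw [hyx] at key
  simp only [hyr] at key
  refine key.trans ?_
  -- the counting function
  obtain ⟨cnt, hcnt⟩ : ∃ cnt : Place k L → ℤ, ∀ P, cnt P = if ∃ t, P.ord (aeval x (Fm (ι t))) ≠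
    ∑ s, (dg (ι t) s : ℤ) * po β P x s then 1 else 0 := ⟨_, fun _ => rfl⟩
  simp only [← hcnt]
  obtain ⟨Mt, hMt⟩ : ∃ Mt : Set (Place k L), Mt = Meet k β dg Fm ι x := ⟨_, rfl⟩
  have hpf : ∀ s, {P : Place k L | po β P x s ≠ 0}.Finite := fun s =>
    po_finite (by rw [hx]; exact one_ne_zero) (hc s)
  have hMfin : Mt.Finite := by
    obtain ⟨U, hU⟩ := exists_supp (k := k) (Finset.univ : Finset T) fun t => aeval x (Fm (ι t))
    refine (U.finite_toSet.union (Set.finite_iUnion hpf)).subset fun P hP => ?_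
    by_contra hcon
    simp only [Set.mem_union, Set.mem_iUnion, Set.mem_ofPred_eq, not_or, not_exists, not_not,
      Finset.mem_coe] at hcon
    obtain ⟨h1, h2⟩ := hcon
    rw [hMt] at hP
    obtain ⟨t, ht⟩ := hP
    rw [Finset.sum_eq_zero fun s _ => by rw [h2, mul_zero]] at ht
    exact h1 (hU t (Finset.mem_univ _) P ht.ne')
  have hBfin : {P : Place k L | under F P ∈ S1}.Finite := finite_over_set (Finset.finite_toSet S1)
  have hcle : ∀ P, cnt P ≤ 1 := by
    intro P
    rw [hcnt]
    split_ifs <;> norm_num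
  have hcsupp : ∀ P, cnt P ≠ 0 → P ∈ Mt ∪ {P : Place k L | under F P ∈ S1} := by
    intro P hP
    rw [hcnt] at hP
    obtain ⟨t, ht⟩ : ∃ t, P.ord (aeval x (Fm (ι t))) ≠
        ∑ s, (dg (ι t) s : ℤ) * po β P x s := by
      by_contra h
      rw [if_neg h] at hP
      exact hP rfl
    by_cases hu : under F P ∈ S1
    · exact Or.inr hu
    · left
      rw [hMt]
      refine ⟨t, lt_of_le_of_ne ?_ ht.symm⟩
      have hmul : IsMulti β (dg (ι t)) (Fl (ι t)) := by
        rw [hFl]
        exact (IsMulti.comb (hPm (ι t)) (hF (ι t))).map _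
      have h1 := ge_eval hmul P (fun I => by
        rw [hFl, coeff_map]
        rcases hS1c t I (under F P) hu with h | h
        · left; rw [h, map_zero]
        · right
          rw [ord_under]
          exact mul_nonneg (by positivity) h) x
      rw [hFlx] at h1
      exact h1.resolve_left (hxT t)
  have hcfin : {P | cnt P ≠ 0}.Finite := (hMfin.union hBfin).subset hcsupp
  have hcsum : ∑ᶠ P, cnt P ≤ Mt.ncard + Module.finrank F L * C2 := by
    have h1 := Pool.Agent.TH812.GV.finsum_le_card (hMfin.union hBfin) (M := 1) hcle hcsupp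
    have h2 : (((Mt ∪ {P : Place k L | under F P ∈ S1}).ncard : ℕ) : ℤ) ≤
        Mt.ncard + Module.finrank F L * C2 := by
      have h3 := Set.ncard_union_le Mt {P : Place k L | under F P ∈ S1}
      have h4 := card_over_le (L := L) S1
      rw [← hC2] at h4
      have h5 : (((Mt ∪ {P : Place k L | under F P ∈ S1}).ncard : ℕ) : ℤ) ≤
        (Mt.ncard : ℤ) + ({P : Place k L | under F P ∈ S1}.ncard : ℕ) := by exact_mod_cast h3
      linarith
    rw [one_mul] at h1
    exact h1.trans h2
  obtain ⟨B, hBd⟩ : ∃ B : ℤ, B = (m + Fintype.card S + Fintype.card T : ℕ) := ⟨_, rfl⟩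
  have hB0 : 0 ≤ B := by rw [hBd]; positivity
  simp only [← hBd]
  have hfq' : {P | B * ql P ≠ 0}.Finite := hqf'.subset fun P hP => right_ne_zero_of_mul hP
  have hfs : ∑ᶠ P : Place k L, (cnt P + (el P + B * ql P)) =
      ∑ᶠ P, cnt P + (∑ᶠ P, el P + B * ∑ᶠ P, ql P) := by
    rw [finsum_add_distrib hcfin ((hef.union hfq').subset fun P hP => by
      by_contra hcon
      simp only [Set.mem_union, Set.mem_ofPred_eq, not_or, not_not] at hcon
      apply hP
      dsimp only
      rw [hcon.1, hcon.2, add_zero]), finsum_add_distrib hef hfq', ← mul_finsum]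
  rw [hfs]
  have hes : ∑ᶠ P, el P ≤ canDeg k L + C1 * Module.finrank F L := by
    have h1 : el = fun P => ((ram F P : ℤ) - 1) + ram F P * Q (under F P) := funext hel
    rw [h1]
    exact hqsum
  have hqs : ∑ᶠ P, ql P ≤ C3 * Module.finrank F L := by
    have h1 : ql = fun P => (ram F P : ℤ) * Q (under F P) := funext hql
    rw [h1]
    exact husum
  have h10 : B * ∑ᶠ P, ql P ≤ B * (C3 * Module.finrank F L) :=
    mul_le_mul_of_nonneg_left hqs hB0
  rw [← hMt]
  have hcast : ((C2 + C1 + (m + Fintype.card S + Fintype.card T) * C3 : ℕ) : ℤ) =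
      C2 + C1 + B * C3 := by
    rw [hBd]
    push_cast
    ring
  rw [hcast]
  have hfinal : (Mt.ncard + Module.finrank F L * C2 : ℤ) + (canDeg k L + C1 * Module.finrank F L +
      B * (C3 * Module.finrank F L)) =
      Mt.ncard + canDeg k L + (C2 + C1 + B * C3) * Module.finrank F L := by
    ring
  rw [← hfinal]
  exact add_le_add hcsum (add_le_add hes h10)

end Pool.Agent.K6.H80.FV
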