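import Pool.Agent.K6.H80.FV.Main

/-!
The height inequality with the height of the space of the vector fields.
-/

set_option autoImplicit false
set_option linter.unusedSectionVars false

open MvPolynomial FF Pool.Agent.W603.LV Pool.Agent.W603.PV
open Pool.Agent.TH812.GV2 (Loc)
open Pool.Agent.TH145.GC (exists_minor)
open Pool.Agent.K6.H80.LV (Ti OK St sM pw up up_le mn mn_pw mn_step pw_mem det_blk sM_up_mem po
  po_le exists_po exists_sc sc Tan exists_coords der_adjoin bp px px_apply bht po_finite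
  hgt_le_bht)

namespace Pool.Agent.K6.H80.FV

section lin

theorem minors_eq {K Γ b κ : Type} [Field K] [Fintype b] [DecidableEq b] [Fintype κ]
    [DecidableEq κ] {v : b → Γ → K} {w : κ → Γ → K} (hv : LinearIndependent K v)
    (hvw : ∀ i, v i ∈ Submodule.span K (Set.range w)) (e : b ≃ κ) :
    ∃ g : K, g ≠ 0 ∧ ∀ τ : κ → Γ, (Matrix.of fun i j : b => v i (τ (e j))).det =
      g * (Matrix.of fun i j : κ => w i (τ j)).det := by
  simp only [Submodule.mem_span_range_iff_exists_fun] at hvw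
  choose G hG using hvw
  have key : ∀ τ : κ → Γ, (Matrix.of fun i j : b => v i (τ (e j))).det =
      (Matrix.of fun i j : b => G i (e j)).det * (Matrix.of fun i j : κ => w i (τ j)).det := by
    intro τ
    rw [← Matrix.det_submatrix_equiv_self e (Matrix.of fun i j : κ => w i (τ j)),
      ← Matrix.det_mul]
    congr 1
    ext i j
    rw [Matrix.mul_apply]
    simp only [Matrix.of_apply, Matrix.submatrix_apply]
    rw [Equiv.sum_comp e (fun k => G i k * w k (τ (e j))), ← hG i, Finset.sum_apply]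
    exact Finset.sum_congr rfl fun k _ => rfl
  refine ⟨_, fun h0 => ?_, key⟩
  obtain ⟨τ0, hτ0⟩ := exists_minor v hv
  have h1 := key (τ0 ∘ e.symm)
  rw [h0, zero_mul] at h1
  apply hτ0
  rw [← h1]
  congr 1
  ext i j
  simp

theorem exists_split {K σ T : Type} [Field K] [Fintype σ] [Fintype T]
    (W : Submodule K (σ ⊕ T → K)) :
    ∃ (ρ t : ℕ) (u : Fin ρ → σ → K) (w : Fin ρ ⊕ Fin t → σ ⊕ T → K) (θ : Fin t → T),
      LinearIndependent K u ∧ Submodule.span K (Set.range u) = W.map (pr K σ T) ∧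
      W ≤ Submodule.span K (Set.range w) ∧ Module.finrank K W = ρ + t ∧ t ≤ Fintype.card T ∧
      ρ = Module.finrank K (W.map (pr K σ T)) ∧
      ∃ g : K, g ≠ 0 ∧ ∀ τ : Fin ρ → σ, (Matrix.of fun i j : Fin ρ ⊕ Fin t =>
        w i (Sum.elim (fun a => Sum.inl (τ a)) (fun a => Sum.inr (θ a)) j)).det =
        (Matrix.of fun i j => u i (τ j)).det * g := by
  classical
  obtain ⟨U, hU⟩ : ∃ U, U = W.map (pr K σ T) := ⟨_, rfl⟩
  obtain ⟨W0, hW0⟩ : ∃ W0, W0 = W ⊓ LinearMap.ker (pr K σ T) := ⟨_, rfl⟩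
  rw [← hU]
  obtain ⟨bU, -⟩ : ∃ b : Module.Basis (Fin (Module.finrank K U)) K U, b = Module.finBasis K U :=
    ⟨_, rfl⟩
  obtain ⟨b0, -⟩ : ∃ b : Module.Basis (Fin (Module.finrank K W0)) K W0, b = Module.finBasis K W0 :=
    ⟨_, rfl⟩
  have hlift : ∀ i, ∃ z ∈ W, pr K σ T z = (bU i : σ → K) := by
    intro i
    have h1 : (bU i : σ → K) ∈ W.map (pr K σ T) := by rw [← hU]; exact (bU i).2
    obtain ⟨z, hz, hz'⟩ := h1
    exact ⟨z, hz, hz'⟩
  choose z hzW hz using hlift
  have hb0 : ∀ i, (b0 i : σ ⊕ T → K) ∈ W ∧ pr K σ T (b0 i : σ ⊕ T → K) = 0 := fun i => by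
    have h1 : (b0 i : σ ⊕ T → K) ∈ W ⊓ LinearMap.ker (pr K σ T) := by rw [← hW0]; exact (b0 i).2
    exact ⟨h1.1, h1.2⟩
  have hb0l : ∀ i l, (b0 i : σ ⊕ T → K) (Sum.inl l) = 0 := fun i l => congrFun (hb0 i).2 l
  have hu : LinearIndependent K fun i => (bU i : σ → K) :=
    bU.linearIndependent.map' U.subtype (Submodule.ker_subtype U)
  have hw0 : LinearIndependent K fun i => (b0 i : σ ⊕ T → K) :=
    b0.linearIndependent.map' W0.subtype (Submodule.ker_subtype W0)
  have hw0' : LinearIndependent K fun (i : Fin (Module.finrank K W0)) (t : T) =>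
      (b0 i : σ ⊕ T → K) (Sum.inr t) := by
    rw [Fintype.linearIndependent_iff] at hw0 ⊢
    intro g hg
    apply hw0 g
    funext γ
    rw [Finset.sum_apply]
    rcases γ with l | t
    · exact Finset.sum_eq_zero fun i _ => by rw [Pi.smul_apply, hb0l, smul_zero]
    · have h1 := congrFun hg t
      rw [Finset.sum_apply] at h1
      exact h1
  obtain ⟨θ, hθ⟩ := exists_minor _ hw0'
  obtain ⟨τ0, hτ0⟩ := exists_minor _ hu
  obtain ⟨w, hw⟩ : ∃ w : Fin (Module.finrank K U) ⊕ Fin (Module.finrank K W0) → σ ⊕ T → K,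
      w = Sum.elim z fun i => (b0 i : σ ⊕ T → K) := ⟨_, rfl⟩
  have hdet : ∀ τ : Fin (Module.finrank K U) → σ,
      (Matrix.of fun i j : Fin (Module.finrank K U) ⊕ Fin (Module.finrank K W0) =>
        w i (Sum.elim (fun a => Sum.inl (τ a)) (fun a => Sum.inr (θ a)) j)).det =
        (Matrix.of fun i j => (bU i : σ → K) (τ j)).det *
          (Matrix.of fun i j => (b0 i : σ ⊕ T → K) (Sum.inr (θ j))).det := by
    intro τ
    rw [← Matrix.det_fromBlocks_zero₂₁ (Matrix.of fun i j => (bU i : σ → K) (τ j))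
      (Matrix.of fun i j => z i (Sum.inr (θ j)))
      (Matrix.of fun i j => (b0 i : σ ⊕ T → K) (Sum.inr (θ j)))]
    congr 1
    ext i j
    rcases i with i | i <;> rcases j with j | j
    · simp only [hw, Matrix.of_apply, Sum.elim_inl, Matrix.fromBlocks_apply₁₁]
      exact congrFun (hz i) (τ j)
    · simp only [hw, Matrix.of_apply, Sum.elim_inl, Sum.elim_inr, Matrix.fromBlocks_apply₁₂]
    · simp only [hw, Matrix.of_apply, Sum.elim_inl, Sum.elim_inr, Matrix.fromBlocks_apply₂₁,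
        Matrix.zero_apply]
      exact hb0l i (τ j)
    · simp only [hw, Matrix.of_apply, Sum.elim_inr, Matrix.fromBlocks_apply₂₂]
  have hwW : ∀ i, w i ∈ W := by
    rintro (i | i)
    · rw [hw]; exact hzW i
    · rw [hw]; exact (hb0 i).1
  have hspan : W ≤ Submodule.span K (Set.range w) := by
    intro y hy
    have h1 : pr K σ T y ∈ U := by rw [hU]; exact ⟨y, hy, rfl⟩
    obtain ⟨a, ha⟩ : ∃ a : Fin (Module.finrank K U) → K, a = fun i => bU.repr ⟨_, h1⟩ i := ⟨_, rfl⟩
    have h2 : ∑ i, a i • (bU i : σ → K) = pr K σ T y := by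
      have h3 := bU.sum_repr ⟨_, h1⟩
      have h4 := congrArg (fun v : U => (v : σ → K)) h3
      simp only [Submodule.coe_sum, Submodule.coe_smul] at h4
      rw [ha]
      exact h4
    have h3 : y - ∑ i, a i • z i ∈ W0 := by
      rw [hW0]
      refine ⟨sub_mem hy (sum_mem fun i _ => Submodule.smul_mem _ _ (hzW i)), ?_⟩
      rw [SetLike.mem_coe, LinearMap.mem_ker, map_sub, map_sum, ← h2, sub_eq_zero]
      exact Finset.sum_congr rfl fun i _ => by rw [map_smul, hz]
    have h4 : y - ∑ i, a i • z i ∈ Submodule.span K (Set.range w) := by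
      obtain ⟨a', ha'⟩ : ∃ a' : Fin (Module.finrank K W0) → K, a' = fun i => b0.repr ⟨_, h3⟩ i :=
        ⟨_, rfl⟩
      have h5 : ∑ i, a' i • (b0 i : σ ⊕ T → K) = y - ∑ i, a i • z i := by
        have h6 := b0.sum_repr ⟨_, h3⟩
        have h7 := congrArg (fun v : W0 => (v : σ ⊕ T → K)) h6
        simp only [Submodule.coe_sum, Submodule.coe_smul] at h7
        rw [ha']
        exact h7
      rw [← h5]
      exact sum_mem fun i _ => Submodule.smul_mem _ _ (Submodule.subset_span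
        ⟨Sum.inr i, by rw [hw]; rfl⟩)
    have h5 : ∑ i, a i • z i ∈ Submodule.span K (Set.range w) :=
      sum_mem fun i _ => Submodule.smul_mem _ _ (Submodule.subset_span
        ⟨Sum.inl i, by rw [hw]; rfl⟩)
    have h6 := add_mem h4 h5
    rwa [sub_add_cancel] at h6
  have hwi : LinearIndependent K w := by
    have h1 : (Matrix.of fun i j : Fin (Module.finrank K U) ⊕ Fin (Module.finrank K W0) =>
        w i (Sum.elim (fun a => Sum.inl (τ0 a)) (fun a => Sum.inr (θ a)) j)).det ≠ 0 := by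
      rw [hdet]
      exact mul_ne_zero hτ0 hθ
    obtain ⟨ψ, hψ⟩ : ∃ ψ : (σ ⊕ T → K) →ₗ[K]
        (Fin (Module.finrank K U) ⊕ Fin (Module.finrank K W0) → K), ∀ v j, ψ v j =
        v (Sum.elim (fun a => Sum.inl (τ0 a)) (fun a => Sum.inr (θ a)) j) :=
      ⟨{ toFun := fun v j => v (Sum.elim (fun a => Sum.inl (τ0 a)) (fun a => Sum.inr (θ a)) j)
         map_add' := fun _ _ => rfl
         map_smul' := fun _ _ => rfl }, fun _ _ => rfl⟩
    have h2 : LinearIndependent K (ψ ∘ w) := by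
      have h3 := Matrix.linearIndependent_rows_of_det_ne_zero h1
      have h4 : ψ ∘ w = (Matrix.of fun i j : Fin (Module.finrank K U) ⊕
          Fin (Module.finrank K W0) => w i (Sum.elim (fun a => Sum.inl (τ0 a))
            (fun a => Sum.inr (θ a)) j)).row := by
        funext i j
        rw [Function.comp_apply, hψ]
        rfl
      rw [h4]
      exact h3
    exact LinearIndependent.of_comp ψ h2
  refine ⟨Module.finrank K U, Module.finrank K W0, fun i => (bU i : σ → K), w, θ, hu, ?_, hspan,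
    ?_, ?_, rfl, _, hθ, hdet⟩
  · apply le_antisymm
    · rw [Submodule.span_le]
      rintro _ ⟨i, rfl⟩
      exact (bU i).2
    · intro y hy
      have h3 := bU.sum_repr ⟨y, hy⟩
      have h4 := congrArg (fun v : U => (v : σ → K)) h3
      simp only [Submodule.coe_sum, Submodule.coe_smul] at h4
      rw [← h4]
      exact sum_mem fun i _ => Submodule.smul_mem _ _ (Submodule.subset_span ⟨i, rfl⟩)
  · have h1 : W = Submodule.span K (Set.range w) := by
      refine le_antisymm hspan ?_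
      rw [Submodule.span_le]
      rintro _ ⟨i, rfl⟩
      exact hwW i
    rw [h1, finrank_span_eq_card hwi, Fintype.card_sum, Fintype.card_fin, Fintype.card_fin]
  · have h1 := hw0'.fintype_card_le_finrank
    rw [Fintype.card_fin, Module.finrank_pi] at h1
    exact h1

end lin

section glob

variable {k K : Type} [Field k] [Field K] [Algebra k K] {σ S A T : Type} [Fintype σ] [Fintype S]
  [Fintype T]

/-- The local order of the space with the basis `u`, relative to the point `x`. -/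
noncomputable def lo (β : σ → S) (P : Place k K) (x : σ → K) {ρ : ℕ} (u : Fin ρ → σ → K) : ℤ :=
  ⨅ τ : {τ : Fin ρ → σ // (Matrix.of fun i j => u i (τ j)).det ≠ 0},
    (P.ord (Matrix.of fun i j => u i (τ.1 j)).det - ∑ j, po β P x (β (τ.1 j)))

variable (k) in
/-- The height of the space with the basis `u`, relative to the point `x`. -/
noncomputable def sht (β : σ → S) (x : σ → K) {ρ : ℕ} (u : Fin ρ → σ → K) : ℤ :=
  - ∑ᶠ P : Place k K, lo β P x u

theorem lo_le {β : σ → S} {P : Place k K} {x : σ → K} {ρ : ℕ} {u : Fin ρ → σ → K}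
    (τ : Fin ρ → σ) (hτ : (Matrix.of fun i j => u i (τ j)).det ≠ 0) :
    lo β P x u ≤ P.ord (Matrix.of fun i j => u i (τ j)).det - ∑ j, po β P x (β (τ j)) := by
  unfold lo
  exact ciInf_le (Finite.bddBelow_range _)
    (⟨τ, hτ⟩ : {τ : Fin ρ → σ // (Matrix.of fun i j => u i (τ j)).det ≠ 0})

theorem exists_lo {β : σ → S} {P : Place k K} {x : σ → K} {ρ : ℕ} {u : Fin ρ → σ → K}
    (hu : LinearIndependent K u) :
    ∃ τ : Fin ρ → σ, (Matrix.of fun i j => u i (τ j)).det ≠ 0 ∧
      P.ord (Matrix.of fun i j => u i (τ j)).det - ∑ j, po β P x (β (τ j)) = lo β P x u := by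
  obtain ⟨τ0, hτ0⟩ := exists_minor u hu
  have : Nonempty {τ : Fin ρ → σ // (Matrix.of fun i j => u i (τ j)).det ≠ 0} := ⟨⟨τ0, hτ0⟩⟩
  obtain ⟨τ, hτ⟩ := exists_eq_ciInf_of_finite
    (f := fun τ : {τ : Fin ρ → σ // (Matrix.of fun i j => u i (τ j)).det ≠ 0} =>
      P.ord (Matrix.of fun i j => u i (τ.1 j)).det - ∑ j, po β P x (β (τ.1 j)))
  exact ⟨τ.1, τ.2, hτ⟩

variable [IsAlgClosed k] [CharZero k] [IsFF k K]
  {β : σ → S} {wT : T → S → ℕ} {c : S → σ} {dg : A → S → ℕ}
  {D : A → (σ →₀ ℕ) → Derivation ℤ K K}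

theorem lo_finite {x : σ → K} (hx : ∀ s, x (c s) ≠ 0) (hc : ∀ s, β (c s) = s) {ρ : ℕ}
    {u : Fin ρ → σ → K} (hu : LinearIndependent K u) :
    {P : Place k K | lo β P x u ≠ 0}.Finite := by
  classical
  obtain ⟨U, hU⟩ := exists_supp (k := k) (Finset.univ : Finset (Fin ρ → σ))
    fun τ => (Matrix.of fun i j => u i (τ j)).det
  have hp : ∀ s, {P : Place k K | po β P x s ≠ 0}.Finite := fun s => po_finite (hx s) (hc s)
  refine (U.finite_toSet.union (Set.finite_iUnion hp)).subset fun P hP => ?_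
  by_contra hcon
  simp only [Set.mem_union, Set.mem_iUnion, Set.mem_ofPred_eq, not_or, not_exists, not_not,
    Finset.mem_coe] at hcon
  obtain ⟨h1, h2⟩ := hcon
  apply hP
  obtain ⟨τ, -, hτ⟩ := exists_lo (β := β) (P := P) (x := x) hu
  rw [← hτ, Finset.sum_eq_zero fun j _ => h2 _, sub_zero]
  by_contra h
  exact h1 (hU τ (Finset.mem_univ _) P h)

/-- The sum of the local inequalities. -/
theorem sum_places2 {x : σ → K} (hx : ∀ s, x (c s) = 1) (hc : ∀ s, β (c s) = s) {Θ : K}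
    {α : S → ℤ} {C lw : Place k K → ℤ} (hC : {P | C P ≠ 0}.Finite) (hlw : {P | lw P ≠ 0}.Finite)
    (h : ∀ P : Place k K, ∑ s, (- α s) * po β P x s - C P ≤ P.ord Θ + lw P) :
    ∑ s, α s * bht k β x s ≤ ∑ᶠ P, C P + ∑ᶠ P, lw P := by
  classical
  have hf : {P | C P + lw P ≠ 0}.Finite := (hC.union hlw).subset fun P hP => by
    by_contra hcon
    simp only [Set.mem_union, Set.mem_ofPred_eq, not_or, not_not] at hcon
    apply hP
    rw [hcon.1, hcon.2, add_zero]
  have h1 := sum_places (k := k) hx hc (Θ := Θ) (α := α) hf fun P => by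
    have := h P
    linarith
  rwa [finsum_add_distrib hC hlw] at h1

open scoped Classical in
/-- The total number of the rows. -/
theorem num2 [Fintype A] {b : Finset (Rx σ S A ⊕ A)}
    (hbV : ∀ s, Sum.inl (Sum.inl s) ∈ b) (hb : ∀ a, Sum.inr a ∈ b) :
    ∑ s, tw b s + Fintype.card A + Fintype.card S ≤ b.card := by
  obtain ⟨b1, hb1⟩ : ∃ b1 : Finset (Rx σ S A ⊕ A),
    b1 = (b.filter fun i => ∃ t, i = Sum.inl (Sum.inr t)) := ⟨_, rfl⟩
  obtain ⟨b2, hb2⟩ : ∃ b2 : Finset (Rx σ S A ⊕ A), b2 = Finset.univ.image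
    (fun o : A ⊕ S => match o with
      | Sum.inl a => (Sum.inr a : Rx σ S A ⊕ A)
      | Sum.inr s => Sum.inl (Sum.inl s)) := ⟨_, rfl⟩
  have h2 : b2.card = Fintype.card A + Fintype.card S := by
    rw [hb2, Finset.card_image_of_injective, Finset.card_univ, Fintype.card_sum]
    rintro (a | s) (a' | s') h
    all_goals simp_all
  have h3 : Disjoint b1 b2 := by
    rw [Finset.disjoint_left]
    intro i hi hi'
    rw [hb1, Finset.mem_filter] at hi
    obtain ⟨-, t, ht⟩ := hi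
    rw [hb2, Finset.mem_image] at hi'
    obtain ⟨(a | s), -, rfl⟩ := hi'
    · simp at ht
    · simp at ht
  have h4 : b1 ∪ b2 ⊆ b := by
    refine Finset.union_subset ?_ ?_
    · rw [hb1]; exact Finset.filter_subset _ _
    · rw [hb2]
      intro i hi
      obtain ⟨(a | s), -, rfl⟩ := Finset.mem_image.1 hi
      · exact hb a
      · exact hbV s
  have h5 := Finset.card_le_card h4
  rw [Finset.card_union_of_disjoint h3, h2] at h5
  have h6 : ∑ s, tw b s ≤ b1.card := by
    unfold tw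
    rw [Finset.sum_comm, Finset.sum_coe_sort b (fun i => ∑ s, ft i s), hb1, Finset.card_filter]
    refine Finset.sum_le_sum fun i _ => ?_
    rcases i with (s' | t) | a
    · simp [ft]
    · simp only [ft]
      rw [Finset.sum_ite_eq Finset.univ t.2.1 (fun _ => 1), if_pos (Finset.mem_univ _),
        if_pos ⟨t, rfl⟩]
    · simp [ft]
  omega

open scoped Classical in
/-- The height inequality, with the height of the space of the vector fields. -/
theorem ineq2 [Fintype A] (hc : ∀ s, β (c s) = s) {y : σ ⊕ T → K}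
    (hx : ∀ s, y (Sum.inl (c s)) = 1) (hz : ∀ t, y (Sum.inr t) ≠ 0)
    {φ : A → σ ⊕ T → K} (hφ : Fn β wT c dg D y φ)
    {q e : Place k K → ℤ} (hq0 : ∀ P, 0 ≤ q P) (he0 : ∀ P, 0 ≤ e P)
    (hqf : {P | q P ≠ 0}.Finite) (hef : {P | e P ≠ 0}.Finite)
    (hdir : ∀ P : Place k K, ∀ a, ∀ I ∈ St β c (dg a), Ge P (-e P) (D a I (unif P)))
    (hloss : ∀ (P : Place k K) δ, Loc P δ → ∀ a, ∀ I ∈ St β c (dg a), ∀ g f, Ge P g f →
      Ge P (g - q P) (D a I f - D a I (unif P) * δ f)) :
    ∃ (ρ : ℕ) (u : Fin ρ → σ → K) (w : S → ℕ), LinearIndependent K u ∧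
      Submodule.span K (Set.range u) = (Full β wT c dg D y).map (pr K σ T) ∧
      ∑ s, w s + Fintype.card A + Fintype.card S ≤ ρ + Fintype.card T ∧
      ∑ s, ((∑ a, dg a s : ℕ) - w s : ℤ) * bht k β (y ∘ Sum.inl) s +
        sht k β (y ∘ Sum.inl) u ≤
      ∑ᶠ P : Place k K, ((if ∃ t, P.ord (y (Sum.inr t)) ≠
        ∑ s, (wT t s : ℤ) * po β P (y ∘ Sum.inl) s then 1 else 0) +
          (e P + (ρ + Fintype.card T : ℕ) * q P)) := by
  have hx0 : ∀ s, y (Sum.inl (c s)) ≠ 0 := fun s => by rw [hx]; exact one_ne_zero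
  have hs0 : LinearIndepOn K (vv β wT c dg D y fun a => pw c (dg a))
      (Set.range fun s : S => (Sum.inl (Sum.inl s) : Rx σ S A ⊕ A)) := by
    rw [← Set.image_univ]
    refine LinearIndepOn.image_of_comp _ _ ?_
    rw [linearIndepOn_univ_iff, Fintype.linearIndependent_iff]
    intro r hr s
    have h2 := congrFun hr (Sum.inl (c s))
    simp only [Finset.sum_apply, Function.comp_apply, vv, wv, Pi.smul_apply, smul_eq_mul,
      Pi.zero_apply] at h2
    rw [sum_gx_inl, hc, hx, mul_one] at h2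
    exact h2
  obtain ⟨b, hbV, hb, hbi, hspan, hcard⟩ := exists_rows hc hx0 hφ hs0
  obtain ⟨ρ, t, u, w, θ, hu, huW, hWw, hR, htT, -, g, hg, hgτ⟩ :=
    exists_split (Full β wT c dg D y)
  have hbc : b.card = ρ + t := by rw [← hcard]; exact hR
  have eb : Nonempty (b ≃ Fin ρ ⊕ Fin t) := by
    rw [← Fintype.card_eq, Fintype.card_coe, Fintype.card_sum, Fintype.card_fin,
      Fintype.card_fin, hbc]
  obtain ⟨eb⟩ := eb
  obtain ⟨g', hg', hgg⟩ := minors_eq hbi (fun i => hWw (vv_mem_full y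
    (fun a => pw_mem hc _) i.1)) eb
  -- the determinants
  obtain ⟨τb, hτb⟩ : ∃ τb : (Fin ρ → σ) → b → σ ⊕ T, ∀ τ j, τb τ j =
    Sum.elim (fun a => Sum.inl (τ a)) (fun a => Sum.inr (θ a)) (eb j) := ⟨_, fun _ _ => rfl⟩
  have hmx : ∀ τ : Fin ρ → σ, (mx β wT c dg D y (fun a => pw c (dg a)) b (τb τ)).det =
      (Matrix.of fun i j => u i (τ j)).det * (g' * g) := by
    intro τ
    have h1 := hgg (Sum.elim (fun a => Sum.inl (τ a)) (fun a => Sum.inr (θ a)))
    rw [hgτ] at h1
    have h2 : (mx β wT c dg D y (fun a => pw c (dg a)) b (τb τ)) = Matrix.of fun i j : b =>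
        vv β wT c dg D y (fun a => pw c (dg a)) i
          (Sum.elim (fun a => Sum.inl (τ a)) (fun a => Sum.inr (θ a)) (eb j)) := by
      ext i j
      rw [mx, Matrix.of_apply, Matrix.of_apply, hτb]
    rw [h2, h1]
    ring
  have hex : ∀ τ : Fin ρ → σ, ∏ j : b, ex y (τb τ j) = ∏ a, y (Sum.inr (θ a)) := by
    intro τ
    simp only [hτb]
    rw [Equiv.prod_comp eb (fun j => ex y (Sum.elim (fun a => Sum.inl (τ a))
      (fun a => Sum.inr (θ a)) j)), Fintype.prod_sum_type]
    simp [ex]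
  have hcol : ∀ (τ : Fin ρ → σ) (v : S → ℤ), ∑ s, (col β (τb τ) s : ℤ) * v s =
      ∑ j, v (β (τ j)) := by
    intro τ v
    have h1 : ∀ s, (col β (τb τ) s : ℤ) = ∑ j, if β (τ j) = s then 1 else 0 := by
      intro s
      unfold col
      simp only [hτb]
      rw [Equiv.sum_comp eb (fun j => gw β (fun (_ : T) _ => 0) (Sum.elim (fun a => Sum.inl (τ a))
        (fun a => Sum.inr (θ a)) j) s), Fintype.sum_sum_type]
      simp [gw]
    simp only [h1, Finset.sum_mul]
    rw [Finset.sum_comm]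
    refine Finset.sum_congr rfl fun j _ => ?_
    simp
  obtain ⟨C, hC⟩ : ∃ C : Place k K → ℤ, ∀ P, C P = (if ∃ t, P.ord (y (Sum.inr t)) ≠
        ∑ s, (wT t s : ℤ) * po β P (y ∘ Sum.inl) s then 1 else 0) +
          (e P + (ρ + Fintype.card T : ℕ) * q P) := ⟨_, fun _ => rfl⟩
  have hp : ∀ s, {P : Place k K | po β P (y ∘ Sum.inl) s ≠ 0}.Finite := fun s =>
    po_finite (hx0 s) (hc s)
  have hCf : {P | C P ≠ 0}.Finite := by
    obtain ⟨U, hU⟩ := exists_supp (k := k) (Finset.univ : Finset T) fun t => y (Sum.inr t)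
    refine (((U.finite_toSet.union (Set.finite_iUnion hp)).union hqf).union hef).subset
      fun P hP => ?_
    by_contra hcon
    simp only [Set.mem_union, Set.mem_iUnion, Set.mem_ofPred_eq, not_or, not_exists, not_not,
      Finset.mem_coe] at hcon
    obtain ⟨⟨⟨h1, h2⟩, h3⟩, h4⟩ := hcon
    apply hP
    rw [hC, h3, h4, if_neg, mul_zero, add_zero, add_zero]
    rintro ⟨t, ht⟩
    apply ht
    rw [Finset.sum_eq_zero fun s _ => by rw [h2, mul_zero]]
    by_contra h
    exact h1 (hU t (Finset.mem_univ _) P h)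
  refine ⟨ρ, u, tw b, hu, huW, ?_, ?_⟩
  · have h1 := num2 hbV hb
    rw [hbc] at h1
    omega
  simp only [← hC]
  obtain ⟨Z, hZ⟩ : ∃ Z : K, Z = (∏ a, mn (y ∘ Sum.inl) (pw c (dg a))) * ∏ a, y (Sum.inr (θ a)) :=
    ⟨_, rfl⟩
  have hZ0 : Z ≠ 0 := by
    rw [hZ]
    refine mul_ne_zero (Finset.prod_ne_zero_iff.2 fun a _ => ?_)
      (Finset.prod_ne_zero_iff.2 fun a _ => hz _)
    rw [mn_pw]
    exact Finset.prod_ne_zero_iff.2 fun s _ => pow_ne_zero _ (hx0 s)
  have hsum := sum_places2 (k := k) (x := y ∘ Sum.inl) hx hc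
    (α := fun s => (∑ a, dg a s : ℕ) - (tw b s : ℕ)) (C := C)
    (lw := fun P => lo β P (y ∘ Sum.inl) u) hCf (lo_finite (x := y ∘ Sum.inl) hx0 hc hu)
    (Θ := (g' * g) / Z) (fun P => ?_)
  · unfold sht
    linarith
  · obtain ⟨δ, hδ⟩ := Pool.Agent.TH812.GV2.exists_locd P
    obtain ⟨τ, hτ0, hτ⟩ := exists_lo (β := β) (P := P) (x := y ∘ Sum.inl) hu
    have hdet : (mx β wT c dg D y (fun a => pw c (dg a)) b (τb τ)).det ≠ 0 := by
      rw [hmx]
      exact mul_ne_zero hτ0 (mul_ne_zero hg' hg)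
    have h1 := local_est (wT := wT) hc hδ (hq0 P) (he0 P) hx0 hz (hdir P) (hloss P δ hδ)
      hbV hb (τb τ) hspan hdet
    rw [hmx, hex, ← hZ, mul_div_assoc, P.ord_mul hτ0 (div_ne_zero (mul_ne_zero hg' hg) hZ0)] at h1
    have h2 : (b.card : ℤ) * q P ≤ (ρ + Fintype.card T : ℕ) * q P :=
      mul_le_mul_of_nonneg_right (by rw [hbc]; exact_mod_cast (by omega)) (hq0 P)
    have h3 : ∑ s, ((col β (τb τ) s + tw b s : ℕ) - (∑ a, dg a s : ℕ)) *
        po β P (y ∘ Sum.inl) s = ∑ j, po β P (y ∘ Sum.inl) (β (τ j)) +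
        ∑ s, (-(((∑ a, dg a s : ℕ) : ℤ) - (tw b s : ℕ))) * po β P (y ∘ Sum.inl) s := by
      rw [← hcol τ (fun s => po β P (y ∘ Sum.inl) s), ← Finset.sum_add_distrib]
      exact Finset.sum_congr rfl fun s _ => by push_cast; ring
    rw [h3] at h1
    have h4 := hC P
    rw [← hτ]
    linarith

end glob

end Pool.Agent.K6.H80.FV
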