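import Pool.Agent.K6.H80.LV.Choice

/-!
Vector fields that are dual to the coefficients of the monomials in two variables of each block, with
additional weighted coordinates.
-/

set_option autoImplicit false
set_option linter.unusedSectionVars false

open MvPolynomial FF Pool.Agent.W603.LV Pool.Agent.W603.PV
open Pool.Agent.K6.H80.LV

namespace Pool.Agent.K6.H80.FV

section der

variable {K S : Type} [Field K]

theorem der_prod_pow (δ : Derivation ℤ K K) {lam : S → K} (hl : ∀ s, lam s ≠ 0) (g : S → ℕ)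
    (U : Finset S) : δ (∏ s ∈ U, lam s ^ g s) =
      (∏ s ∈ U, lam s ^ g s) * ∑ s ∈ U, (g s : K) * (δ (lam s) / lam s) := by
  classical
  induction U using Finset.induction_on with
  | empty => simp
  | insert a U ha ih =>
    rw [Finset.prod_insert ha, δ.leibniz, ih, Finset.sum_insert ha, δ.leibniz_pow]
    simp only [smul_eq_mul, nsmul_eq_mul]
    have h1 : (g a : K) * (lam a ^ (g a - 1) * δ (lam a)) =
        lam a ^ g a * ((g a : K) * (δ (lam a) / lam a)) := by
      rcases Nat.eq_zero_or_pos (g a) with h | h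
      · rw [h]; simp
      · obtain ⟨n, hn⟩ : ∃ n, g a = n + 1 := ⟨g a - 1, by omega⟩
        rw [hn, Nat.add_sub_cancel, pow_succ]
        have := hl a
        field_simp
    rw [h1]
    ring

end der

variable {K : Type} [Field K] {σ S A T : Type} [Fintype σ] [Fintype S]

open scoped Classical in
/-- The weights of the coordinates. -/
noncomputable def gw (β : σ → S) (wT : T → S → ℕ) (γ : σ ⊕ T) (s : S) : ℕ :=
  Sum.elim (fun l => if β l = s then 1 else 0) (fun t => wT t s) γ

/-- The vector of a block. -/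
noncomputable def gx (β : σ → S) (wT : T → S → ℕ) (y : σ ⊕ T → K) (s : S) : σ ⊕ T → K :=
  fun γ => (gw β wT γ s : K) * y γ

open scoped Classical in
theorem gx_inl (β : σ → S) (wT : T → S → ℕ) (y : σ ⊕ T → K) (s : S) (l : σ) :
    gx β wT y s (Sum.inl l) = if β l = s then y (Sum.inl l) else 0 := by
  simp only [gx, gw, Sum.elim_inl]
  split_ifs
  · rw [Nat.cast_one, one_mul]
  · rw [Nat.cast_zero, zero_mul]

theorem sum_gx_inl (β : σ → S) (wT : T → S → ℕ) (y : σ ⊕ T → K) (a : S → K) (l : σ) :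
    ∑ s, a s * gx β wT y s (Sum.inl l) = a (β l) * y (Sum.inl l) := by
  classical
  simp only [gx_inl]
  rw [Finset.sum_eq_single (β l)]
  · rw [if_pos rfl]
  · intro s _ hs
    rw [if_neg (Ne.symm hs), mul_zero]
  · intro h; exact absurd (Finset.mem_univ _) h

/-- The vector of the derivatives of the coordinates. -/
def Ev (D : A → (σ →₀ ℕ) → Derivation ℤ K K) (y : σ ⊕ T → K) (a : A) (I : σ →₀ ℕ) : σ ⊕ T → K :=
  fun γ => D a I (y γ)

open scoped Classical in
/-- The tangent vector fields. -/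
noncomputable def tv (β : σ → S) (c : S → σ) (dg : A → S → ℕ)
    (D : A → (σ →₀ ℕ) → Derivation ℤ K K) (y : σ ⊕ T → K) (t : Ti σ S A) : σ ⊕ T → K :=
  if OK β dg t then
    y (Sum.inl (c t.2.1)) • Ev D y t.1 (sM c (dg t.1) t.2.2.1 (up t.2.2.2 t.2.1)) -
      y (Sum.inl (t.2.2.1 t.2.1)) • Ev D y t.1 (sM c (dg t.1) t.2.2.1 t.2.2.2) else 0

/-- The indices of the rows. -/
abbrev Rx (σ S A : Type) := S ⊕ Ti σ S A

/-- The position vectors and the tangent vector fields. -/
noncomputable def wv (β : σ → S) (wT : T → S → ℕ) (c : S → σ) (dg : A → S → ℕ)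
    (D : A → (σ →₀ ℕ) → Derivation ℤ K K) (y : σ ⊕ T → K) : Rx σ S A → σ ⊕ T → K
  | Sum.inl s => gx β wT y s
  | Sum.inr t => tv β c dg D y t

/-- The rows: the vector fields and the derivatives with the exponents `I`. -/
noncomputable def vv (β : σ → S) (wT : T → S → ℕ) (c : S → σ) (dg : A → S → ℕ)
    (D : A → (σ →₀ ℕ) → Derivation ℤ K K)
    (y : σ ⊕ T → K) (I : A → σ →₀ ℕ) : Rx σ S A ⊕ A → σ ⊕ T → K
  | Sum.inl o => wv β wT c dg D y o
  | Sum.inr a => Ev D y a (I a)

/-- Scaling of the blocks. -/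
noncomputable def gsc (β : σ → S) (wT : T → S → ℕ) (lam : S → K) (y : σ ⊕ T → K) :
    σ ⊕ T → K := fun γ => (∏ s, lam s ^ gw β wT γ s) * y γ

theorem prod_gw_inl (β : σ → S) (wT : T → S → ℕ) (lam : S → K) (l : σ) :
    ∏ s, lam s ^ gw β wT (Sum.inl l) s = lam (β l) := by
  classical
  simp only [gw, Sum.elim_inl]
  rw [Finset.prod_eq_single (β l)]
  · rw [if_pos rfl, pow_one]
  · intro s _ hs
    rw [if_neg (Ne.symm hs), pow_zero]
  · intro h; exact absurd (Finset.mem_univ _) h

theorem gsc_inl (β : σ → S) (wT : T → S → ℕ) (lam : S → K) (y : σ ⊕ T → K) (l : σ) :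
    gsc β wT lam y (Sum.inl l) = lam (β l) * y (Sum.inl l) := by
  rw [gsc, prod_gw_inl]

/-- The factors of the rows. -/
def fac (lam : S → K) : Rx σ S A ⊕ A → K
  | Sum.inl (Sum.inl _) => 1
  | Sum.inl (Sum.inr t) => lam t.2.1
  | Sum.inr _ => 1

theorem der_gsc (β : σ → S) (wT : T → S → ℕ) {lam : S → K} (hl : ∀ s, lam s ≠ 0)
    (y : σ ⊕ T → K) (δ : Derivation ℤ K K) (γ : σ ⊕ T) : δ (gsc β wT lam y γ) =
      (∏ s, lam s ^ gw β wT γ s) *
        (δ (y γ) + ∑ s, δ (lam s) / lam s * gx β wT y s γ) := by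
  rw [gsc, δ.leibniz, der_prod_pow δ hl]
  simp only [smul_eq_mul, gx, mul_add, Finset.mul_sum]
  congr 1
  exact Finset.sum_congr rfl fun s _ => by ring

theorem vv_scale {β : σ → S} {wT : T → S → ℕ} {c : S → σ} (hc : ∀ s, β (c s) = s)
    (dg : A → S → ℕ)
    (D : A → (σ →₀ ℕ) → Derivation ℤ K K) (y : σ ⊕ T → K) {lam : S → K}
    (hl : ∀ s, lam s ≠ 0) (I : A → σ →₀ ℕ) :
    ∃ κ : Rx σ S A ⊕ A → S → K, (∀ s s', κ (Sum.inl (Sum.inl s)) s' = 0) ∧
      ∀ i γ, vv β wT c dg D (gsc β wT lam y) I i γ =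
        (∏ s, lam s ^ gw β wT γ s) *
          (fac lam i * (vv β wT c dg D y I i γ + ∑ s, κ i s * gx β wT y s γ)) := by
  classical
  refine ⟨fun i s => match i with
    | Sum.inl (Sum.inl _) => 0
    | Sum.inl (Sum.inr t) => if OK β dg t then
        y (Sum.inl (c t.2.1)) *
          (D t.1 (sM c (dg t.1) t.2.2.1 (up t.2.2.2 t.2.1)) (lam s) / lam s) -
          y (Sum.inl (t.2.2.1 t.2.1)) *
            (D t.1 (sM c (dg t.1) t.2.2.1 t.2.2.2) (lam s) / lam s) else 0
    | Sum.inr a => D a (I a) (lam s) / lam s, fun s s' => rfl, ?_⟩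
  rintro ((s | t) | a) γ
  · simp only [vv, wv, fac, zero_mul, one_mul, Finset.sum_const_zero, add_zero]
    rw [gx, gx, gsc]
    ring
  · simp only [vv, wv, fac, tv]
    by_cases ht : OK β dg t
    · simp only [if_pos ht, Pi.sub_apply, Pi.smul_apply, smul_eq_mul, Ev]
      rw [der_gsc β wT hl, der_gsc β wT hl]
      have h1 : gsc β wT lam y (Sum.inl (c t.2.1)) = lam t.2.1 * y (Sum.inl (c t.2.1)) := by
        rw [gsc_inl, hc]
      have h2 : gsc β wT lam y (Sum.inl (t.2.2.1 t.2.1)) =
          lam t.2.1 * y (Sum.inl (t.2.2.1 t.2.1)) := by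
        rw [gsc_inl, ht.1]
      rw [h1, h2]
      simp only [sub_mul, Finset.sum_sub_distrib, mul_assoc, ← Finset.mul_sum]
      ring
    · simp only [if_neg ht, Pi.zero_apply, zero_mul, Finset.sum_const_zero, add_zero, mul_zero]
  · simp only [vv, fac, one_mul, Ev]
    exact der_gsc β wT hl y (D a (I a)) γ

/-- The derivatives, modulo the tangent vectors. -/
theorem Ev_mod {β : σ → S} {wT : T → S → ℕ} {c : S → σ} (dg : A → S → ℕ)
    (D : A → (σ →₀ ℕ) → Derivation ℤ K K) {y : σ ⊕ T → K}
    (hx : ∀ s, y (Sum.inl (c s)) ≠ 0) (a : A) {J : σ →₀ ℕ} (hJ : J ∈ St β c (dg a)) :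
    Ev D y a J - (mn (y ∘ Sum.inl) J / mn (y ∘ Sum.inl) (pw c (dg a))) •
        Ev D y a (pw c (dg a)) ∈
      Submodule.span K (Set.range (wv β wT c dg D y)) := by
  classical
  obtain ⟨x, hxd⟩ : ∃ x : σ → K, x = y ∘ Sum.inl := ⟨_, rfl⟩
  have hxl : ∀ l, y (Sum.inl l) = x l := fun l => by rw [hxd]; rfl
  simp only [hxl] at hx
  rw [← hxd]
  obtain ⟨W, hW⟩ : ∃ W, W = Submodule.span K (Set.range (wv β wT c dg D y)) := ⟨_, rfl⟩
  have hgW : ∀ o, wv β wT c dg D y o ∈ W := fun o => hW ▸ Submodule.subset_span ⟨o, rfl⟩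
  rw [← hW]
  have hc0 : mn x (pw c (dg a)) ≠ 0 := by
    rw [mn_pw]
    exact Finset.prod_ne_zero_iff.2 fun s _ => pow_ne_zero _ (hx s)
  obtain ⟨l, j, hl, hj, rfl⟩ := hJ
  -- induction on the sum of the exponents
  have key : ∀ (N : ℕ) (j : S → ℕ), (∀ s, j s ≤ dg a s) → ∑ s, j s = N →
      Ev D y a (sM c (dg a) l j) - (mn x (sM c (dg a) l j) / mn x (pw c (dg a))) •
        Ev D y a (pw c (dg a)) ∈ W := by
    intro N
    induction N with
    | zero =>
      intro j hj hN
      have h0 : j = 0 := by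
        funext s
        exact (Finset.sum_eq_zero_iff.1 hN) s (Finset.mem_univ s)
      rw [h0, sM_zero]
      change Ev D y a (pw c (dg a)) - (mn x (pw c (dg a)) / _) • _ ∈ W
      rw [div_self hc0, one_smul, sub_self]
      exact zero_mem _
    | succ N ih =>
      intro j hj hN
      obtain ⟨s, hs⟩ : ∃ s, 0 < j s := by
        by_contra hcon
        push Not at hcon
        have : ∑ s, j s = 0 := Finset.sum_eq_zero fun s _ => by have := hcon s; omega
        omega
      obtain ⟨j', hj'⟩ : ∃ j' : S → ℕ, ∀ s', j' s' = if s' = s then j s - 1 else j s' :=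
        ⟨_, fun _ => rfl⟩
      have hjj : j = up j' s := by
        funext s'
        unfold up
        split_ifs with h
        · rw [h, hj', if_pos rfl]
          omega
        · rw [hj', if_neg h]
      have hj's : j' s = j s - 1 := by rw [hj', if_pos rfl]
      have hle : ∀ s', j' s' ≤ dg a s' := by
        intro s'
        rw [hj']
        split_ifs with h
        · subst h
          have := hj s'
          omega
        · exact hj s'
      have hlt : j' s < dg a s := by
        have := hj s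
        omega
      have hsum : ∑ s', j' s' = N := by
        have h1 : ∑ s', j s' = ∑ s', j' s' + 1 := by
          have h2 : ∑ s' ∈ Finset.univ.erase s, j s' = ∑ s' ∈ Finset.univ.erase s, j' s' :=
            Finset.sum_congr rfl fun s' hs' => by
              rw [hj', if_neg (Finset.ne_of_mem_erase hs')]
          rw [← Finset.add_sum_erase _ j (Finset.mem_univ s),
            ← Finset.add_sum_erase _ j' (Finset.mem_univ s), hj's, h2]
          omega
        omega
      have h1 := ih j' hle hsum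
      have h2 := hgW (Sum.inr (a, s, l, j'))
      have hok : OK β dg (a, s, l, j') := ⟨hl, hle, hlt⟩
      simp only [wv, tv] at h2
      rw [if_pos hok, hxl, hxl] at h2
      rw [hjj]
      have h3 := mn_step x c (dg a) l j' s hlt
      have hcs := hx s
      have h5 : mn x (sM c (dg a) l (up j' s)) = x (l s) * mn x (sM c (dg a) l j') / x (c s) := by
        rw [← h3]
        field_simp
      have h4 : Ev D y a (sM c (dg a) l (up j' s)) -
          (mn x (sM c (dg a) l (up j' s)) / mn x (pw c (dg a))) • Ev D y a (pw c (dg a)) =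
          (x (c s))⁻¹ • (x (c s) • Ev D y a (sM c (dg a) l (up j' s)) -
            x (l s) • Ev D y a (sM c (dg a) l j')) +
          (x (l s) / x (c s)) • (Ev D y a (sM c (dg a) l j') -
            (mn x (sM c (dg a) l j') / mn x (pw c (dg a))) • Ev D y a (pw c (dg a))) := by
        rw [h5]
        funext p
        simp only [Pi.add_apply, Pi.sub_apply, Pi.smul_apply, smul_eq_mul]
        field_simp
        ring
      rw [h4]
      exact add_mem (Submodule.smul_mem _ _ h2) (Submodule.smul_mem _ _ h1)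
  exact key _ j hj rfl

end Pool.Agent.K6.H80.FV
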