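import Pool.Agent.K6.H80.FV.Glob
import Pool.Agent.K6.H80.LV.Multi

/-!
The functionals, and the height inequality for generic members of linear systems over function
fields.
-/

set_option autoImplicit false
set_option linter.unusedSectionVars false

open MvPolynomial FF Pool.Agent.W603.LV Pool.Agent.W603.PV
open Pool.Agent.TH812.GV2 (Loc GoodS exists_duals2 sum_under)
open Pool.Agent.TH812.GV (sum_loss)
open Pool.Agent.K6.H80.LV (Ti OK St sM pw up up_le mn mn_pw mn_step pw_mem det_blk sM_up_mem po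
  po_le exists_po exists_sc sc Tan exists_coords der_adjoin bp px px_apply bht po_finite
  hgt_le_bht chain der_coeff DimB Sys finite_st aeval_mn eval_comb)

namespace Pool.Agent.K6.H80.FV

section fn

variable {k0 L : Type} [Field k0] [Field L] [Algebra k0 L] {σ S A T : Type} [Fintype σ]
  [Fintype S] [Fintype T] {β : σ → S} {wT : T → S → ℕ} {c : S → σ} {dg : A → S → ℕ}

/-- The functionals exist if the values of the polynomials are algebraic over the field of the
coordinates. -/
theorem exists_fn [CharZero L] (hc : ∀ s, β (c s) = s) {y : σ ⊕ T → L}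
    (hx : ∀ s, y (Sum.inl (c s)) = 1) (G : MvPolynomial σ L)
    (halg : IsAlgebraic (IntermediateField.adjoin k0 (Set.range y)) (eval (y ∘ Sum.inl) G)) :
    ∃ φ : σ ⊕ T → L, (∀ s, ∑ γ, φ γ * gx β wT y s γ = 0) ∧
      ∀ δ : Derivation ℤ L L, (∀ r : k0, δ (algebraMap k0 L r) = 0) →
        ∑ γ, φ γ * δ (y γ) = - ∑ u ∈ G.support, δ (G.coeff u) * mn (y ∘ Sum.inl) u := by
  classical
  obtain ⟨f, hf⟩ : ∃ f : σ ⊕ T → Derivation k0 L L →ₗ[L] L, ∀ l δ, f l δ = δ (y l) :=
    ⟨fun l => { toFun := fun δ => δ (y l), map_add' := fun _ _ => rfl, map_smul' := fun _ _ => rfl },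
      fun _ _ => rfl⟩
  obtain ⟨g, hg⟩ : ∃ g : Derivation k0 L L →ₗ[L] L, ∀ δ, g δ =
      ∑ u ∈ G.support, δ (G.coeff u) * mn (y ∘ Sum.inl) u :=
    ⟨{ toFun := fun δ => ∑ u ∈ G.support, δ (G.coeff u) * mn (y ∘ Sum.inl) u
       map_add' := fun a b => by
         simp only [Derivation.add_apply, add_mul, Finset.sum_add_distrib]
       map_smul' := fun r a => by
         simp only [Derivation.smul_apply, smul_eq_mul, RingHom.id_apply, Finset.mul_sum,
           mul_assoc] }, fun _ => rfl⟩
  have hker : ⨅ i, LinearMap.ker (f i) ≤ LinearMap.ker g := by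
    intro δ hδ
    simp only [Submodule.mem_iInf, LinearMap.mem_ker] at hδ ⊢
    have h1 : ∀ l, δ (y l) = 0 := fun l => by rw [← hf]; exact hδ l
    have h2 := chain (δ.restrictScalars ℤ) (y ∘ Sum.inl) G
    have h3 : (δ.restrictScalars ℤ) (eval (y ∘ Sum.inl) G) = 0 :=
      der_adjoin (δ.restrictScalars ℤ) (fun r => δ.map_algebraMap r) (T := Set.range y) (by
        rintro _ ⟨l, rfl⟩
        exact h1 l) halg
    rw [h3] at h2
    have h4 : ∑ i, eval (y ∘ Sum.inl) (pderiv i G) *
        (δ.restrictScalars ℤ) ((y ∘ Sum.inl) i) = 0 :=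
      Finset.sum_eq_zero fun i _ => by
        have : (δ.restrictScalars ℤ) ((y ∘ Sum.inl) i) = 0 := h1 (Sum.inl i)
        rw [this, mul_zero]
    rw [h4, add_zero] at h2
    rw [hg]
    exact h2.symm
  have hspan := mem_span_of_iInf_ker_le_ker hker
  rw [Submodule.mem_span_range_iff_exists_fun] at hspan
  obtain ⟨a, ha⟩ := hspan
  have ha' : ∀ δ : Derivation ℤ L L, (∀ r : k0, δ (algebraMap k0 L r) = 0) →
      ∑ l, a l * δ (y l) = ∑ u ∈ G.support, δ (G.coeff u) * mn (y ∘ Sum.inl) u := by
    intro δ hδ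
    let δ' : Derivation k0 L L :=
      { toFun := δ
        map_add' := fun a b => map_add δ a b
        map_smul' := fun r y => by
          change δ (r • y) = r • δ y
          rw [Algebra.smul_def, δ.leibniz, hδ, smul_zero, add_zero, smul_eq_mul, Algebra.smul_def]
        map_one_eq_zero' := δ.map_one_eq_zero
        leibniz' := fun a b => δ.leibniz a b }
    have h1 := congrArg (fun h : Derivation k0 L L →ₗ[L] L => h δ') ha
    simp only [LinearMap.coe_sum, Finset.sum_apply, LinearMap.smul_apply, smul_eq_mul, hf, hg] at h1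
    exact h1
  obtain ⟨q, hq⟩ : ∃ q : S → L, ∀ s, q s = ∑ γ, a γ * gx β wT y s γ := ⟨_, fun _ => rfl⟩
  obtain ⟨p, hp⟩ : ∃ p : σ ⊕ T → L, ∀ γ, p γ = Sum.elim (fun l => if l = c (β l) then q (β l)
    else 0) (fun _ => 0) γ := ⟨_, fun _ => rfl⟩
  refine ⟨fun γ => - a γ + p γ, fun s => ?_, fun δ hδ => ?_⟩
  · simp only [add_mul, neg_mul, Finset.sum_add_distrib, Finset.sum_neg_distrib]
    rw [← hq, Finset.sum_eq_single (Sum.inl (c s) : σ ⊕ T)]
    · rw [hp, Sum.elim_inl, hc, if_pos rfl, gx_inl, hc, if_pos rfl, hx, mul_one, neg_add_cancel]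
    · rintro (l | t) _ hl
      · rw [hp, Sum.elim_inl]
        by_cases h1 : l = c (β l)
        · have h3 : gx β wT y s (Sum.inl l) = 0 := by
            rw [gx_inl, if_neg]
            intro h2
            apply hl
            rw [h1, h2]
          rw [h3, mul_zero]
        · rw [if_neg h1, zero_mul]
      · rw [hp, Sum.elim_inr, zero_mul]
    · intro h; exact absurd (Finset.mem_univ _) h
  · simp only [add_mul, neg_mul, Finset.sum_add_distrib, Finset.sum_neg_distrib]
    rw [ha' δ hδ, Finset.sum_eq_zero (f := fun γ => p γ * δ (y γ)) fun γ _ => ?_, add_zero]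
    rcases γ with l | t
    · rw [hp, Sum.elim_inl]
      by_cases h1 : l = c (β l)
      · have h2 : δ (y (Sum.inl l)) = 0 := by rw [h1, hx, δ.map_one_eq_zero]
        rw [h2, mul_zero]
      · rw [if_neg h1, zero_mul]
    · rw [hp, Sum.elim_inr, zero_mul]

open scoped Classical in
/-- The functionals, for general derivations. -/
theorem exists_Fn [CharZero L] (hc : ∀ s, β (c s) = s) {y : σ ⊕ T → L}
    (hx : ∀ s, y (Sum.inl (c s)) = 1) {J : A → Type}
    [∀ a, Fintype (J a)] (P : ∀ a, J a → MvPolynomial σ k0) (cf : ∀ a, J a → L)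
    {F : A → MvPolynomial σ L} (hF : ∀ a, F a = ∑ j, C (cf a j) * map (algebraMap k0 L) (P a j))
    {D : A → (σ →₀ ℕ) → Derivation ℤ L L} (hDk : ∀ a I (r : k0), D a I (algebraMap k0 L r) = 0)
    (hD : ∀ a b, ∀ I ∈ St β c (dg b), ∑ j, D b I (cf a j) * aeval (y ∘ Sum.inl) (P a j) =
      if a = b then mn (y ∘ Sum.inl) I else 0)
    (halg : ∀ a, IsAlgebraic (IntermediateField.adjoin k0 (Set.range y))
      (eval (y ∘ Sum.inl) (F a))) :
    ∃ φ : A → σ ⊕ T → L, Fn β wT c dg D y φ := by
  classical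
  choose φ hφ1 hφ2 using fun a => exists_fn (k0 := k0) (wT := wT) hc hx (F a) (halg a)
  refine ⟨φ, hφ1, fun a b I hI hab => ?_, fun a I hI => ?_⟩
  · have h1 := hφ2 a (D b I) (hDk b I)
    rw [der_coeff (P a) (cf a) (D b I) (hDk b I) _ (hF a), hD a b I hI, if_neg hab,
      neg_zero] at h1
    exact h1
  · have h1 := hφ2 a (D a I) (hDk a I)
    rw [der_coeff (P a) (cf a) (D a I) (hDk a I) _ (hF a), hD a a I hI, if_pos rfl] at h1
    exact h1

end fn

section ord

variable {σ S : Type} [Fintype σ] [Fintype S]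

open scoped Classical in
/-- The polynomial `f` is multihomogeneous of multidegree `e`. -/
def IsMulti {R : Type} [CommSemiring R] (β : σ → S) (e : S → ℕ) (f : MvPolynomial σ R) : Prop :=
  ∀ I ∈ f.support, ∀ s, ∑ l ∈ Finset.univ.filter (fun l => β l = s), I l = e s

/-- The order of the value of a form with integral coefficients. -/
theorem ge_eval {k L : Type} [Field k] [Field L] [Algebra k L] {β : σ → S} {e : S → ℕ}
    {f : MvPolynomial σ L} (hf : IsMulti β e f) (P : Place k L)
    (hP : ∀ I, Ge P 0 (f.coeff I)) (x : σ → L) :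
    Ge P (∑ s, (e s : ℤ) * po β P x s) (eval x f) := by
  classical
  rw [eval_eq']
  refine Ge.sum _ _ fun I hI => ?_
  have h1 : ∀ l, Ge P (po β P x (β l)) (x l) := fun l => by
    by_cases h : x l = 0
    · exact Or.inl h
    · exact Or.inr (po_le (β := β) P h)
  have h2 := Ge.prod (P := P) Finset.univ (fun l => x l ^ I l) (fun l => (I l : ℤ) * po β P x (β l))
    fun l _ => (h1 l).pow _
  have h3 : ∑ l, (I l : ℤ) * po β P x (β l) = ∑ s, (e s : ℤ) * po β P x s := by
    rw [← Finset.sum_fiberwise Finset.univ β]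
    refine Finset.sum_congr rfl fun s _ => ?_
    rw [← hf I hI s]
    push_cast
    rw [Finset.sum_mul]
    exact Finset.sum_congr rfl fun l hl => by rw [(Finset.mem_filter.1 hl).2]
  rw [h3] at h2
  have h4 := (hP I).mul h2
  rwa [zero_add] at h4

theorem IsMulti.comb {R0 F J : Type} [Field R0] [Field F] [Algebra R0 F] [Fintype J]
    {β : σ → S} {e : S → ℕ} {P : J → MvPolynomial σ R0} (hP : ∀ j, IsMulti β e (P j))
    {c : J → F} {G : MvPolynomial σ F} (hG : G = ∑ j, C (c j) * map (algebraMap R0 F) (P j)) :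
    IsMulti β e G := by
  classical
  intro I hI s
  rw [mem_support_iff, hG, coeff_sum] at hI
  obtain ⟨j, -, hj⟩ := Finset.exists_ne_zero_of_sum_ne_zero hI
  rw [coeff_C_mul, coeff_map] at hj
  refine hP j I ?_ s
  rw [mem_support_iff]
  intro h0
  rw [h0, map_zero, mul_zero] at hj
  exact hj rfl

theorem IsMulti.map {R R' : Type} [CommSemiring R] [CommSemiring R'] {β : σ → S} {e : S → ℕ}
    {f : MvPolynomial σ R} (hf : IsMulti β e f) (φ : R →+* R') :
    IsMulti β e (MvPolynomial.map φ f) :=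
  fun I hI s => hf I (support_map_subset _ _ hI) s

end ord

end Pool.Agent.K6.H80.FV
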